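import Pool.Agent.Helper62.Mink.Defs

/-!
# Polynomial approximation inside the star-shaped class (module M6)
-/

namespace Pool.Agent.Helper62.Mink

open MeasureTheory Metric Set Polynomial
open scoped RealInnerProductSpace ContDiff NNReal

/-- Every real polynomial is a derivative. -/
theorem exists_antideriv (q : ℝ[X]) : ∃ P : ℝ[X], P.derivative = q := by
  induction q using Polynomial.induction_on' with
  | add p q hp hq =>
    obtain ⟨P, hP⟩ := hp
    obtain ⟨Q, hQ⟩ := hq
    exact ⟨P + Q, by rw [derivative_add, hP, hQ]⟩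
  | monomial n a =>
    refine ⟨Polynomial.monomial (n + 1) (a / (n + 1)), ?_⟩
    rw [Polynomial.derivative_monomial]
    have : ((n : ℝ) + 1) ≠ 0 := by positivity
    simp only [Nat.add_sub_cancel]
    congr 1
    push_cast
    field_simp

/-- The moving average of a continuous function. -/
theorem hasDerivAt_avg {F : ℝ → ℝ} (hF : Continuous F) (η t : ℝ) :
    HasDerivAt (fun t => (1 / (2 * η)) * ∫ x in (t - η)..(t + η), F x)
      ((1 / (2 * η)) * (F (t + η) - F (t - η))) t := by
  have h1 : HasDerivAt (fun u => ∫ x in (0 : ℝ)..u, F x) (F (t + η)) (t + η) :=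
    intervalIntegral.integral_hasDerivAt_right (hF.intervalIntegrable _ _)
      hF.aestronglyMeasurable.stronglyMeasurableAtFilter hF.continuousAt
  have h2 : HasDerivAt (fun u => ∫ x in (0 : ℝ)..u, F x) (F (t - η)) (t - η) :=
    intervalIntegral.integral_hasDerivAt_right (hF.intervalIntegrable _ _)
      hF.aestronglyMeasurable.stronglyMeasurableAtFilter hF.continuousAt
  have h3 : HasDerivAt (fun t => ∫ x in (0 : ℝ)..(t + η), F x) (F (t + η)) t := by
    exact h1.comp_add_const t η
  have h4 : HasDerivAt (fun t => ∫ x in (0 : ℝ)..(t - η), F x) (F (t - η)) t := by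
    exact h2.comp_sub_const t η
  have h5 := (h3.sub h4).const_mul (1 / (2 * η))
  refine h5.congr_of_eventuallyEq (Filter.Eventually.of_forall fun s => ?_)
  simp only [Pi.sub_apply]
  rw [intervalIntegral.integral_interval_sub_left (hF.intervalIntegrable _ _)
    (hF.intervalIntegrable _ _)]

/-- The main one-dimensional inequality. -/
theorem avg_star {F : ℝ → ℝ} (hF : Continuous F) {η κ : ℝ} (hη : 0 < η)
    (hS : ∀ s ∈ Icc (0 : ℝ) 1, ∀ t ∈ Icc (-(1 + η)) (1 + η), s * F t ≤ F (s * t))
    (hκ : ∀ x ∈ Icc (-(2 * η)) (2 * η), |F x - F 0| ≤ κ) (hη2 : η ≤ 1)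
    {t : ℝ} (ht : t ∈ Icc (-1 : ℝ) 1) :
    t * ((1 / (2 * η)) * (F (t + η) - F (t - η))) ≤
      (1 / (2 * η)) * (∫ x in (t - η)..(t + η), F x) + 2 * κ := by
  have hκ0 : 0 ≤ κ := le_trans (abs_nonneg _) (hκ 0 ⟨by linarith, by linarith⟩)
  have hF0 : 0 ≤ F 0 := by
    have := hS 0 ⟨le_rfl, zero_le_one⟩ 0 ⟨by linarith, by linarith⟩
    simpa using this
  suffices h : t * (F (t + η) - F (t - η)) ≤ (∫ x in (t - η)..(t + η), F x) + (2 * η) * (2 * κ) by
    have h2 : (0 : ℝ) < 1 / (2 * η) := by positivity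
    have h3 := mul_le_mul_of_nonneg_left h h2.le
    have h4 : (1 / (2 * η)) * ((2 * η) * (2 * κ)) = 2 * κ := by field_simp
    nlinarith [h3, h4]
  have hint : ∀ a b, IntervalIntegrable F volume a b := fun a b => hF.intervalIntegrable a b
  rcases le_total η t with h1 | h1
  · -- t ≥ η
    have htp : 0 < t + η := by linarith
    have hle : ∫ x in (t - η)..(t + η), (F (t + η) / (t + η)) * x ≤
        ∫ x in (t - η)..(t + η), F x := by
      apply intervalIntegral.integral_mono_on (by linarith)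
        ((continuous_const.mul continuous_id).intervalIntegrable _ _) (hint _ _)
      intro x hx
      have hs := hS (x / (t + η)) ⟨div_nonneg (by linarith [hx.1]) htp.le,
        (div_le_one htp).2 hx.2⟩ (t + η) ⟨by linarith [ht.1], by linarith [ht.2]⟩
      have e1 : x / (t + η) * (t + η) = x := by field_simp
      rw [e1] at hs
      calc F (t + η) / (t + η) * x = x / (t + η) * F (t + η) := by ring
        _ ≤ F x := hs
    have hval : ∫ x in (t - η)..(t + η), (F (t + η) / (t + η)) * x
        = (F (t + η) / (t + η)) * (2 * η * t) := by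
      rw [intervalIntegral.integral_const_mul, integral_id]
      ring
    have hs2 := hS ((t - η) / (t + η)) ⟨div_nonneg (by linarith) htp.le,
        (div_le_one htp).2 (by linarith)⟩ (t + η) ⟨by linarith [ht.1], by linarith [ht.2]⟩
    have e2 : (t - η) / (t + η) * (t + η) = t - η := by field_simp
    rw [e2] at hs2
    have e3 : t * (F (t + η) - F (t - η)) ≤ (F (t + η) / (t + η)) * (2 * η * t) := by
      have e4 : (F (t + η) / (t + η)) * (2 * η * t)
          = t * (F (t + η) - (t - η) / (t + η) * F (t + η)) := by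
        field_simp
        ring
      rw [e4]
      apply mul_le_mul_of_nonneg_left _ (by linarith)
      linarith
    have : 0 ≤ 2 * η * (2 * κ) := by positivity
    linarith
  · rcases le_total t (-η) with h2 | h2
    · -- t ≤ -η
      have htn : t - η < 0 := by linarith
      have hle : ∫ x in (t - η)..(t + η), (F (t - η) / (t - η)) * x ≤
          ∫ x in (t - η)..(t + η), F x := by
        apply intervalIntegral.integral_mono_on (by linarith)
          ((continuous_const.mul continuous_id).intervalIntegrable _ _) (hint _ _)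
        intro x hx
        have hs := hS (x / (t - η)) ⟨div_nonneg_of_nonpos (by linarith [hx.2]) htn.le,
          (div_le_one_of_neg htn).2 hx.1⟩ (t - η) ⟨by linarith [ht.1], by linarith [ht.2]⟩
        have hne : t - η ≠ 0 := htn.ne
        have e1 : x / (t - η) * (t - η) = x := by field_simp
        rw [e1] at hs
        calc F (t - η) / (t - η) * x = x / (t - η) * F (t - η) := by ring
          _ ≤ F x := hs
      have hval : ∫ x in (t - η)..(t + η), (F (t - η) / (t - η)) * x
          = (F (t - η) / (t - η)) * (2 * η * t) := by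
        rw [intervalIntegral.integral_const_mul, integral_id]
        ring
      have hs2 := hS ((t + η) / (t - η)) ⟨div_nonneg_of_nonpos (by linarith) htn.le,
          (div_le_one_of_neg htn).2 (by linarith)⟩ (t - η) ⟨by linarith [ht.1], by linarith [ht.2]⟩
      have hne : t - η ≠ 0 := htn.ne
      have e2 : (t + η) / (t - η) * (t - η) = t + η := by field_simp
      rw [e2] at hs2
      have e3 : t * (F (t + η) - F (t - η)) ≤ (F (t - η) / (t - η)) * (2 * η * t) := by
        have e4 : (F (t - η) / (t - η)) * (2 * η * t)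
            = t * ((t + η) / (t - η) * F (t - η) - F (t - η)) := by
          field_simp
          ring
        rw [e4]
        apply mul_le_mul_of_nonpos_left _ (by linarith)
        linarith
      have : 0 ≤ 2 * η * (2 * κ) := by positivity
      linarith
    · -- |t| ≤ η
      have hle : ∫ _ in (t - η)..(t + η), (F 0 - κ) ≤ ∫ x in (t - η)..(t + η), F x := by
        apply intervalIntegral.integral_mono_on (by linarith)
          (continuous_const.intervalIntegrable _ _) (hint _ _)
        intro x hx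
        have := (abs_le.1 (hκ x ⟨by linarith [hx.1], by linarith [hx.2]⟩)).1
        linarith
      rw [intervalIntegral.integral_const] at hle
      have e1 : (t + η - (t - η)) • (F 0 - κ) = 2 * η * (F 0 - κ) := by
        rw [smul_eq_mul]; ring
      rw [e1] at hle
      have a1 := abs_le.1 (hκ (t + η) ⟨by linarith, by linarith⟩)
      have a2 := abs_le.1 (hκ (t - η) ⟨by linarith, by linarith⟩)
      have h5 : |F (t + η) - F (t - η)| ≤ 2 * κ := abs_le.2 ⟨by linarith, by linarith⟩
      have h6 : |t| ≤ η := abs_le.2 ⟨h2, h1⟩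
      have h7 : t * (F (t + η) - F (t - η)) ≤ η * (2 * κ) := by
        calc t * (F (t + η) - F (t - η)) ≤ |t * (F (t + η) - F (t - η))| := le_abs_self _
          _ = |t| * |F (t + η) - F (t - η)| := abs_mul _ _
          _ ≤ η * (2 * κ) := mul_le_mul h6 h5 (abs_nonneg _) hη.le
      have h8 : 0 ≤ 2 * η * F 0 := by positivity
      nlinarith

theorem exists_poly {f : ℝ → ℝ} (hf : ContinuousOn f (Icc (-1) 1))
    (hS : ∀ s ∈ Icc (0 : ℝ) 1, ∀ t ∈ Icc (-1 : ℝ) 1, s * f t ≤ f (s * t)) {ε : ℝ} (hε : 0 < ε) :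
    ∃ p : ℝ[X], (∀ x ∈ Icc (-1 : ℝ) 1, |p.eval x - f x| ≤ ε) ∧
      ∀ x ∈ Icc (-1 : ℝ) 1, x * p.derivative.eval x ≤ p.eval x := by
  set κ : ℝ := ε / 6 with hκdef
  have hκ : 0 < κ := by positivity
  -- uniform continuity
  obtain ⟨δ, hδ, hδf⟩ := Metric.uniformContinuousOn_iff_le.1
    (isCompact_Icc.uniformContinuousOn_of_continuous hf) κ hκ
  set η : ℝ := min (1 / 2) (δ / 3) with hηdef
  have hη : 0 < η := by positivity
  have hη1 : η ≤ 1 / 2 := min_le_left _ _
  have hη2 : 3 * η ≤ δ := by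
    have : η ≤ δ / 3 := min_le_right _ _
    linarith
  -- the clamp
  have hclamp : Continuous fun x : ℝ => max (-1 : ℝ) (min 1 x) := by fun_prop
  have hclampmem : ∀ x : ℝ, max (-1 : ℝ) (min 1 x) ∈ Icc (-1 : ℝ) 1 := fun x =>
    ⟨le_max_left _ _, max_le (by norm_num) (min_le_left _ _)⟩
  set f0 : ℝ → ℝ := fun x => f (max (-1 : ℝ) (min 1 x)) with hf0
  have hf0c : Continuous f0 := hf.comp_continuous hclamp hclampmem
  have hf0eq : ∀ x ∈ Icc (-1 : ℝ) 1, f0 x = f x := by
    intro x hx
    simp only [hf0]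
    rw [min_eq_right hx.2, max_eq_right hx.1]
  set F : ℝ → ℝ := fun x => f0 ((1 - η) * x) with hFdef
  have hFc : Continuous F := hf0c.comp (continuous_const.mul continuous_id)
  have hmem : ∀ x ∈ Icc (-(1 + η)) (1 + η), (1 - η) * x ∈ Icc (-1 : ℝ) 1 := by
    intro x hx
    constructor
    · nlinarith [hx.1, hx.2, mul_nonneg (by linarith : (0:ℝ) ≤ 1 - η) (by linarith [hx.1] : 0 ≤ x + (1 + η))]
    · nlinarith [hx.1, hx.2, mul_nonneg (by linarith : (0:ℝ) ≤ 1 - η) (by linarith [hx.2] : 0 ≤ (1 + η) - x)]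
  have hFS : ∀ s ∈ Icc (0 : ℝ) 1, ∀ t ∈ Icc (-(1 + η)) (1 + η), s * F t ≤ F (s * t) := by
    intro s hs t ht
    have h1 := hmem t ht
    have h2 := hS s hs _ h1
    have h3 : s * t ∈ Icc (-(1 + η)) (1 + η) := by
      constructor
      · nlinarith [ht.1, ht.2, hs.1, hs.2, mul_nonneg hs.1 (by linarith [ht.1] : 0 ≤ t + (1 + η)),
          mul_nonneg (by linarith [hs.2] : 0 ≤ 1 - s) (by linarith : 0 ≤ 1 + η)]
      · nlinarith [ht.1, ht.2, hs.1, hs.2, mul_nonneg hs.1 (by linarith [ht.2] : 0 ≤ (1 + η) - t),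
          mul_nonneg (by linarith [hs.2] : 0 ≤ 1 - s) (by linarith : 0 ≤ 1 + η)]
    simp only [hFdef]
    rw [hf0eq _ h1, hf0eq _ (hmem _ h3)]
    have e : s * ((1 - η) * t) = (1 - η) * (s * t) := by ring
    rw [← e]
    exact h2
  have hFκ : ∀ x ∈ Icc (-(2 * η)) (2 * η), |F x - F 0| ≤ κ := by
    intro x hx
    have hx1 : x ∈ Icc (-(1 + η)) (1 + η) := ⟨by linarith [hx.1], by linarith [hx.2]⟩
    have h0 : (0 : ℝ) ∈ Icc (-(1 + η)) (1 + η) := ⟨by linarith, by linarith⟩
    simp only [hFdef]
    rw [hf0eq _ (hmem x hx1), hf0eq _ (hmem 0 h0), ← Real.dist_eq]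
    apply hδf _ (hmem x hx1) _ (hmem 0 h0)
    rw [Real.dist_eq, mul_zero, sub_zero, abs_mul, abs_of_nonneg (by linarith : (0:ℝ) ≤ 1 - η)]
    have : |x| ≤ 2 * η := abs_le.2 ⟨hx.1, hx.2⟩
    nlinarith [abs_nonneg x]
  -- closeness of the average
  have hclose : ∀ t ∈ Icc (-1 : ℝ) 1, |(1 / (2 * η)) * (∫ x in (t - η)..(t + η), F x) - f t| ≤ κ := by
    intro t ht
    have hb : ∀ x ∈ Icc (t - η) (t + η), |F x - f t| ≤ κ := by
      intro x hx
      have hx1 : x ∈ Icc (-(1 + η)) (1 + η) := ⟨by linarith [hx.1, ht.1], by linarith [hx.2, ht.2]⟩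
      simp only [hFdef]
      rw [hf0eq _ (hmem x hx1), ← Real.dist_eq]
      apply hδf _ (hmem x hx1) _ ht
      rw [Real.dist_eq]
      have e : (1 - η) * x - t = (x - t) - η * x := by ring
      rw [e]
      have h1 : |x - t| ≤ η := abs_le.2 ⟨by linarith [hx.1], by linarith [hx.2]⟩
      have h2 : |x| ≤ 1 + η := abs_le.2 hx1
      calc |(x - t) - η * x| ≤ |x - t| + |η * x| := abs_sub _ _
        _ = |x - t| + η * |x| := by rw [abs_mul, abs_of_pos hη]
        _ ≤ η + η * (1 + η) := by gcongr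
        _ ≤ δ := by nlinarith
    have hlo : ∫ _ in (t - η)..(t + η), (f t - κ) ≤ ∫ x in (t - η)..(t + η), F x := by
      apply intervalIntegral.integral_mono_on (by linarith)
        (continuous_const.intervalIntegrable _ _) (hFc.intervalIntegrable _ _)
      intro x hx
      have := (abs_le.1 (hb x hx)).1
      linarith
    have hhi : ∫ x in (t - η)..(t + η), F x ≤ ∫ _ in (t - η)..(t + η), (f t + κ) := by
      apply intervalIntegral.integral_mono_on (by linarith)
        (hFc.intervalIntegrable _ _) (continuous_const.intervalIntegrable _ _)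
      intro x hx
      have := (abs_le.1 (hb x hx)).2
      linarith
    rw [intervalIntegral.integral_const] at hlo hhi
    have e0 : (t + η - (t - η)) = 2 * η := by ring
    rw [e0, smul_eq_mul] at hlo hhi
    have h2 : (0 : ℝ) < 1 / (2 * η) := by positivity
    have h3 := mul_le_mul_of_nonneg_left hlo h2.le
    have h4 := mul_le_mul_of_nonneg_left hhi h2.le
    have e1 : (1 / (2 * η)) * (2 * η * (f t - κ)) = f t - κ := by field_simp
    have e2 : (1 / (2 * η)) * (2 * η * (f t + κ)) = f t + κ := by field_simp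
    rw [e1] at h3
    rw [e2] at h4
    exact abs_le.2 ⟨by linarith, by linarith⟩
  -- the derivative
  set G : ℝ → ℝ := fun t => (1 / (2 * η)) * ∫ x in (t - η)..(t + η), F x with hG
  set g : ℝ → ℝ := fun t => (1 / (2 * η)) * (F (t + η) - F (t - η)) with hg
  have hGd : ∀ t, HasDerivAt G (g t) t := fun t => hasDerivAt_avg hFc η t
  have hgc : Continuous g := by
    simp only [hg]
    fun_prop
  obtain ⟨q, hq⟩ := exists_polynomial_near_of_continuousOn (-1) 1 g hgc.continuousOn κ hκ
  obtain ⟨P, hP⟩ := exists_antideriv q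
  set p : ℝ[X] := P + Polynomial.C (G 0 - P.eval 0) with hpdef
  have hpd : p.derivative = q := by
    rw [hpdef, derivative_add, derivative_C, add_zero, hP]
  have hp0 : p.eval 0 = G 0 := by
    rw [hpdef, eval_add, eval_C]; ring
  have hpG : ∀ x ∈ Icc (-1 : ℝ) 1, |p.eval x - G x| ≤ κ := by
    intro x hx
    have hd : ∀ y ∈ Icc (-1 : ℝ) 1, HasDerivWithinAt (fun y => p.eval y - G y) (q.eval y - g y)
        (Icc (-1 : ℝ) 1) y := by
      intro y _
      have h1 := p.hasDerivAt y
      rw [hpd] at h1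
      exact (h1.sub (hGd y)).hasDerivWithinAt
    have hbd : ∀ y ∈ Icc (-1 : ℝ) 1, ‖q.eval y - g y‖ ≤ κ := by
      intro y hy
      rw [Real.norm_eq_abs]
      exact (hq y hy).le
    have := (convex_Icc (-1 : ℝ) 1).norm_image_sub_le_of_norm_hasDerivWithin_le hd hbd
      (by norm_num : (0 : ℝ) ∈ Icc (-1 : ℝ) 1) hx
    simp only [hp0, sub_self, sub_zero, Real.norm_eq_abs] at this
    have h1 : |x| ≤ 1 := abs_le.2 hx
    calc |p.eval x - G x| ≤ κ * |x| := this
      _ ≤ κ * 1 := by gcongr
      _ = κ := mul_one _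
  refine ⟨p + Polynomial.C (4 * κ), ?_, ?_⟩
  · intro x hx
    rw [eval_add, eval_C]
    have h1 := abs_le.1 (hpG x hx)
    have h2 := abs_le.1 (hclose x hx)
    have h3 : G x = (1 / (2 * η)) * ∫ x in (x - η)..(x + η), F x := rfl
    rw [← h3] at h2
    have h4 : ε = 6 * κ := by rw [hκdef]; ring
    rw [h4]
    exact abs_le.2 ⟨by linarith [h1.1, h2.1], by linarith [h1.2, h2.2]⟩
  · intro x hx
    rw [derivative_add, derivative_C, add_zero, hpd, eval_add, eval_C]
    have h1 := abs_le.1 (hpG x hx)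
    have h2 := avg_star hFc hη hFS hFκ (by linarith) hx
    have h3 : |x| ≤ 1 := abs_le.2 hx
    have h4 : |x * (q.eval x - g x)| ≤ κ := by
      rw [abs_mul]
      calc |x| * |q.eval x - g x| ≤ 1 * κ := by
            apply mul_le_mul h3 (hq x hx).le (abs_nonneg _) zero_le_one
        _ = κ := one_mul _
    have h5 := (abs_le.1 h4).2
    have h6 : x * g x ≤ G x + 2 * κ := h2
    have h7 : x * q.eval x = x * g x + x * (q.eval x - g x) := by ring
    rw [h7]
    linarith [h1.1]

/-! ### The segment functional -/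

theorem seg_intervalIntegrable {n : ℕ} {f : ℝ → ℝ} (hf : ContinuousOn f (Icc (-1) 1)) :
    IntervalIntegrable (fun θ => f (Real.cos θ) * Real.cos θ ^ 2 * Real.sin θ ^ (n - 3)) volume
      0 Real.pi := by
  have h : Continuous fun θ => f (Real.cos θ) :=
    hf.comp_continuous Real.continuous_cos fun θ => ⟨Real.neg_one_le_cos θ, Real.cos_le_one θ⟩
  exact ((h.mul (Real.continuous_cos.pow 2)).mul (Real.continuous_sin.pow _)).intervalIntegrable _ _

theorem seg_mono {n : ℕ} {f g : ℝ → ℝ} (hf : ContinuousOn f (Icc (-1) 1))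
    (hg : ContinuousOn g (Icc (-1) 1)) (h : ∀ x ∈ Icc (-1 : ℝ) 1, f x ≤ g x) :
    seg n f ≤ seg n g := by
  unfold seg
  apply intervalIntegral.integral_mono_on Real.pi_pos.le (seg_intervalIntegrable hf)
    (seg_intervalIntegrable hg)
  intro θ hθ
  have h1 := h (Real.cos θ) ⟨Real.neg_one_le_cos θ, Real.cos_le_one θ⟩
  have h2 : 0 ≤ Real.sin θ := Real.sin_nonneg_of_nonneg_of_le_pi hθ.1 hθ.2
  gcongr

theorem seg_add {n : ℕ} {f g : ℝ → ℝ} (hf : ContinuousOn f (Icc (-1) 1))
    (hg : ContinuousOn g (Icc (-1) 1)) :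
    seg n (fun x => f x + g x) = seg n f + seg n g := by
  unfold seg
  rw [← intervalIntegral.integral_add (seg_intervalIntegrable hf) (seg_intervalIntegrable hg)]
  congr 1
  ext θ
  ring

theorem seg_const_mul {n : ℕ} (c : ℝ) (f : ℝ → ℝ) :
    seg n (fun x => c * f x) = c * seg n f := by
  unfold seg
  rw [← intervalIntegral.integral_const_mul]
  congr 1
  ext θ
  ring

theorem seg_one_pos (n : ℕ) : 0 < seg n (fun _ => 1) := by
  unfold seg
  have hc : Continuous fun θ : ℝ => 1 * Real.cos θ ^ 2 * Real.sin θ ^ (n - 3) := by fun_prop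
  apply intervalIntegral.integral_pos Real.pi_pos hc.continuousOn
  · intro θ hθ
    have h2 : 0 ≤ Real.sin θ := Real.sin_nonneg_of_nonneg_of_le_pi hθ.1.le hθ.2
    positivity
  · refine ⟨Real.pi / 4, ⟨by positivity, by linarith [Real.pi_pos]⟩, ?_⟩
    rw [Real.cos_pi_div_four, Real.sin_pi_div_four]
    positivity

theorem seg_sq_pos (n : ℕ) : 0 < seg n (fun x => x ^ 2) := by
  unfold seg
  have hc : Continuous fun θ : ℝ => Real.cos θ ^ 2 * Real.cos θ ^ 2 * Real.sin θ ^ (n - 3) := by
    fun_prop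
  apply intervalIntegral.integral_pos Real.pi_pos hc.continuousOn
  · intro θ hθ
    have h2 : 0 ≤ Real.sin θ := Real.sin_nonneg_of_nonneg_of_le_pi hθ.1.le hθ.2
    positivity
  · refine ⟨Real.pi / 4, ⟨by positivity, by linarith [Real.pi_pos]⟩, ?_⟩
    rw [Real.cos_pi_div_four, Real.sin_pi_div_four]
    positivity

theorem exists_poly_seg {n : ℕ} (hn : 3 ≤ n) {f : ℝ → ℝ} (hf : ContinuousOn f (Icc (-1) 1))
    (hS : ∀ s ∈ Icc (0 : ℝ) 1, ∀ t ∈ Icc (-1 : ℝ) 1, s * f t ≤ f (s * t)) (h0 : seg n f = 0)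
    {ε : ℝ} (hε : 0 < ε) :
    ∃ p : ℝ[X], (∀ x ∈ Icc (-1 : ℝ) 1, |p.eval x - f x| ≤ ε) ∧
      (∀ x ∈ Icc (-1 : ℝ) 1, x * p.derivative.eval x ≤ p.eval x) ∧
      seg n (fun x => p.eval x) = 0 := by
  have _ := hn
  set A : ℝ := seg n (fun _ => 1) with hA
  set B : ℝ := seg n (fun x => x ^ 2) with hB
  have hApos : 0 < A := seg_one_pos n
  have hBpos : 0 < B := seg_sq_pos n
  have hc1 : ContinuousOn (fun _ : ℝ => (1 : ℝ)) (Icc (-1) 1) := continuousOn_const
  have hc2 : ContinuousOn (fun x : ℝ => x ^ 2) (Icc (-1) 1) := by fun_prop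
  have hBA : B ≤ A := by
    apply seg_mono hc2 hc1
    intro x hx
    have : |x| ≤ 1 := abs_le.2 hx
    exact (sq_le_one_iff_abs_le_one x).2 this
  set η : ℝ := ε / 4 with hη
  have hηpos : 0 < η := by positivity
  set ε' : ℝ := min (ε / 4) (η * B / A) with hε'
  have hε'pos : 0 < ε' := by positivity
  have hε'1 : ε' ≤ ε / 4 := min_le_left _ _
  have hε'2 : ε' * A ≤ η * B := by
    have : ε' ≤ η * B / A := min_le_right _ _
    calc ε' * A ≤ η * B / A * A := by gcongr
      _ = η * B := by field_simp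
  set g : ℝ → ℝ := fun t => f t + (-η) * t ^ 2 with hg
  have hgc : ContinuousOn g (Icc (-1) 1) := hf.add (continuousOn_const.mul hc2)
  have hgS : ∀ s ∈ Icc (0 : ℝ) 1, ∀ t ∈ Icc (-1 : ℝ) 1, s * g t ≤ g (s * t) := by
    intro s hs t ht
    have h1 := hS s hs t ht
    simp only [hg]
    have h2 : 0 ≤ η * (s * (1 - s)) * t ^ 2 := by
      have : 0 ≤ s * (1 - s) := mul_nonneg hs.1 (by linarith [hs.2])
      positivity
    nlinarith
  obtain ⟨p, hp1, hp2⟩ := exists_poly hgc hgS hε'pos
  have hpc : ContinuousOn (fun x => p.eval x) (Icc (-1 : ℝ) 1) := p.continuous.continuousOn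
  have hsegg : seg n g = -(η * B) := by
    have h1 := seg_add (n := n) (f := f) (g := fun t => (-η) * t ^ 2) hf
      (continuousOn_const.mul hc2)
    rw [h0, seg_const_mul] at h1
    rw [hg, h1]
    ring
  have hε'c : ContinuousOn (fun _ : ℝ => ε') (Icc (-1) 1) := continuousOn_const
  have hsegε : seg n (fun _ => ε') = ε' * A := by
    have := seg_const_mul (n := n) ε' (fun _ => 1)
    simpa using this
  have hup : seg n (fun x => p.eval x) ≤ -(η * B) + ε' * A := by
    have h1 : seg n (fun x => p.eval x) ≤ seg n (fun x => g x + ε') := by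
      apply seg_mono hpc (hgc.add hε'c)
      intro x hx
      have h2 := (abs_le.1 (hp1 x hx)).2
      show p.eval x ≤ g x + ε'
      linarith
    rw [seg_add hgc hε'c, hsegg, hsegε] at h1
    exact h1
  have hlow : -(η * B) - ε' * A ≤ seg n (fun x => p.eval x) := by
    have h1 : seg n g ≤ seg n (fun x => p.eval x + ε') := by
      apply seg_mono hgc (hpc.add hε'c)
      intro x hx
      have h2 := (abs_le.1 (hp1 x hx)).1
      show g x ≤ p.eval x + ε'
      linarith
    rw [seg_add hpc hε'c, hsegg, hsegε] at h1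
    linarith
  set c : ℝ := -(seg n (fun x => p.eval x)) / A with hc
  have hc0 : 0 ≤ c := by
    rw [hc]
    apply div_nonneg _ hApos.le
    linarith
  have hcA : c * A = -(seg n (fun x => p.eval x)) := by
    rw [hc]; field_simp
  have hcle : c ≤ 2 * η := by
    have h1 : c * A ≤ 2 * η * A := by
      rw [hcA]
      nlinarith
    exact le_of_mul_le_mul_right h1 hApos
  refine ⟨p + Polynomial.C c, ?_, ?_, ?_⟩
  · intro x hx
    rw [eval_add, eval_C]
    have h1 := abs_le.1 (hp1 x hx)
    simp only [hg] at h1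
    have h2 : x ^ 2 ≤ 1 := (sq_le_one_iff_abs_le_one x).2 (abs_le.2 hx)
    have h3 : 0 ≤ x ^ 2 := sq_nonneg x
    have h4 : η * x ^ 2 ≤ η := by nlinarith
    have h5 : 0 ≤ η * x ^ 2 := by positivity
    have h6 : ε = 4 * η := by rw [hη]; ring
    rw [h6] at hε'1 ⊢
    exact abs_le.2 ⟨by linarith [h1.1], by linarith [h1.2]⟩
  · intro x hx
    rw [derivative_add, derivative_C, add_zero, eval_add, eval_C]
    linarith [hp2 x hx]
  · have e : (fun x => (p + Polynomial.C c).eval x) = fun x => p.eval x + c * 1 := by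
      ext x
      rw [eval_add, eval_C, mul_one]
    have h1 := seg_add (n := n) (f := fun x => p.eval x) (g := fun _ => c * 1) hpc
      continuousOn_const
    have h2 : seg n (fun _ => c * 1) = c * A := seg_const_mul c (fun _ => 1)
    rw [e, h1, h2, hcA]
    ring

end Pool.Agent.Helper62.Mink
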