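import Pool.Agent.Helper62.Mink.Defs

namespace Pool.Agent.Helper62.Mink

open MeasureTheory Metric Set
open scoped RealInnerProductSpace ContDiff NNReal

theorem Sublinear.map_zero {n : ℕ} {h : E n → ℝ} (hh : Sublinear h) : h 0 = 0 := by
  have := hh.pos_hom 0 le_rfl 0
  simpa using this

theorem Sublinear.exists_bound {n : ℕ} {h : E n → ℝ} (hh : Sublinear h) :
    ∃ C : ℝ, 0 ≤ C ∧ ∀ x, h x ≤ C * ‖x‖ := by
  classical
  refine ⟨∑ i : Fin n, (|h (EuclideanSpace.single i 1)| + |h (-EuclideanSpace.single i 1)|),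
    by positivity, fun x => ?_⟩
  have h1 : x = ∑ i : Fin n, (x i) • EuclideanSpace.single i (1 : ℝ) := by
    have := (EuclideanSpace.basisFun (Fin n) ℝ).sum_repr x
    simpa [EuclideanSpace.basisFun_apply] using this.symm
  calc h x = h (∑ i : Fin n, (x i) • EuclideanSpace.single i (1 : ℝ)) := by rw [← h1]
    _ ≤ ∑ i : Fin n, h ((x i) • EuclideanSpace.single i (1 : ℝ)) :=
        Finset.le_sum_of_subadditive h hh.map_zero.le hh.add_le _ _
    _ ≤ ∑ i : Fin n, (|h (EuclideanSpace.single i 1)| + |h (-EuclideanSpace.single i 1)|) * ‖x‖ := by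
        refine Finset.sum_le_sum fun i _ => ?_
        have hxi : |x i| ≤ ‖x‖ := by
          have := EuclideanSpace.norm_eq x
          rw [this]
          refine Real.le_sqrt_of_sq_le ?_
          have := Finset.single_le_sum (f := fun j => ‖x j‖ ^ 2) (fun j _ => by positivity)
            (Finset.mem_univ i)
          simpa using this
        rcases le_total 0 (x i) with h0 | h0
        · rw [hh.pos_hom _ h0]
          have : x i * h (EuclideanSpace.single i 1) ≤ |x i| * |h (EuclideanSpace.single i 1)| := by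
            rw [← abs_mul]; exact le_abs_self _
          nlinarith [abs_nonneg (h (EuclideanSpace.single i 1)),
            abs_nonneg (h (-EuclideanSpace.single i 1)), abs_nonneg (x i), norm_nonneg x]
        · have e1 : (x i) • EuclideanSpace.single i (1 : ℝ)
              = (-(x i)) • (-EuclideanSpace.single i (1 : ℝ)) := by simp
          rw [e1, hh.pos_hom _ (by linarith)]
          have : -(x i) * h (-EuclideanSpace.single i 1)
              ≤ |x i| * |h (-EuclideanSpace.single i 1)| := by
            rw [← abs_neg (x i), ← abs_mul]; exact le_abs_self _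
          nlinarith [abs_nonneg (h (EuclideanSpace.single i 1)),
            abs_nonneg (h (-EuclideanSpace.single i 1)), abs_nonneg (x i), norm_nonneg x]
    _ = _ := by rw [Finset.sum_mul]

theorem Sublinear.exists_lipschitz {n : ℕ} {h : E n → ℝ} (hh : Sublinear h) :
    ∃ C : ℝ≥0, LipschitzWith C h := by
  obtain ⟨C, hC, hb⟩ := hh.exists_bound
  refine ⟨Real.toNNReal C, LipschitzWith.of_le_add_mul _ fun x y => ?_⟩
  have h1 := hh.add_le y (x - y)
  have h2 := hb (x - y)
  rw [add_sub_cancel] at h1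
  rw [dist_eq_norm]
  calc h x ≤ h y + h (x - y) := h1
    _ ≤ _ := by
        rw [Real.coe_toNNReal C hC]; linarith

theorem Sublinear.continuous {n : ℕ} {h : E n → ℝ} (hh : Sublinear h) : Continuous h := by
  obtain ⟨C, hC⟩ := hh.exists_lipschitz
  exact hC.continuous

/-- positive homogeneity. -/
theorem conv_smul {n : ℕ} (h : E n → ℝ) (f : ℝ → ℝ) {c : ℝ} (hc : 0 ≤ c) (u : E n) :
    conv h f (c • u) = c * conv h f u := by
  unfold conv
  rcases hc.eq_or_lt with rfl | hc
  · simp
  · rw [← integral_const_mul]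
    refine integral_congr_ae (Filter.Eventually.of_forall fun w => ?_)
    simp only [norm_smul, Real.norm_eq_abs, abs_of_pos hc, inner_smul_left, RCLike.conj_to_real]
    have : c * inner ℝ u (w : E n) / (c * ‖u‖) = inner ℝ u (w : E n) / ‖u‖ :=
      mul_div_mul_left _ _ hc.ne'
    rw [this]; ring

/-- polar coordinates for positively homogeneous functions times a radial function. -/
theorem integral_polar {n : ℕ} (hn : 1 ≤ n) (φ : E n → ℝ) (k : ℕ) (ρ : ℝ → ℝ)
    (hφ : ∀ c : ℝ, 0 < c → ∀ x, x ≠ 0 → φ (c • x) = c ^ k * φ x) :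
    ∫ x : E n, φ x * ρ ‖x‖
      = (∫ w : sphere (0 : E n) 1, φ (w : E n) ∂(volume : Measure (E n)).toSphere)
        * ∫ r in Ioi (0 : ℝ), r ^ (n - 1 + k) * ρ r := by
  have : Nonempty (Fin n) := ⟨⟨0, by omega⟩⟩
  have : Nontrivial (E n) := inferInstance
  have hdim : Module.finrank ℝ (E n) = n := by simp
  calc ∫ x : E n, φ x * ρ ‖x‖
      = ∫ x : ({(0 : E n)}ᶜ : Set (E n)), φ (x : E n) * ρ ‖(x : E n)‖
          ∂((volume : Measure (E n)).comap (↑)) := by
        rw [integral_subtype_comap (measurableSet_singleton _).compl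
          fun x : E n ↦ φ x * ρ (‖x‖), restrict_compl_singleton]
    _ = ∫ z : sphere (0 : E n) 1 × Ioi (0 : ℝ), φ (z.1 : E n) * ((z.2 : ℝ) ^ k * ρ z.2)
          ∂((volume : Measure (E n)).toSphere.prod
            (Measure.volumeIoiPow (Module.finrank ℝ (E n) - 1))) := by
        rw [← (Measure.measurePreserving_homeomorphUnitSphereProd
          (volume : Measure (E n))).integral_comp (Homeomorph.measurableEmbedding _)]
        refine integral_congr_ae (Filter.Eventually.of_forall fun x => ?_)
        have hx : (x : E n) ≠ 0 := x.2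
        have hx' : 0 < ‖(x : E n)‖ := norm_pos_iff.2 hx
        have e1 : ((homeomorphUnitSphereProd (E n) x).1 : E n) = ‖(x : E n)‖⁻¹ • (x : E n) := by
          simp
        have e2 : ((homeomorphUnitSphereProd (E n) x).2 : ℝ) = ‖(x : E n)‖ := by
          simp
        simp only
        rw [e1, e2, hφ _ (inv_pos.2 hx') _ hx]
        have e3 : ‖(x : E n)‖⁻¹ ^ k * ‖(x : E n)‖ ^ k = 1 := by
          rw [← mul_pow, inv_mul_cancel₀ hx'.ne', one_pow]
        calc φ (x : E n) * ρ ‖(x : E n)‖
            = (‖(x : E n)‖⁻¹ ^ k * ‖(x : E n)‖ ^ k) * (φ (x : E n) * ρ ‖(x : E n)‖) := by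
              rw [e3, one_mul]
          _ = _ := by ring
    _ = (∫ w : sphere (0 : E n) 1, φ (w : E n) ∂(volume : Measure (E n)).toSphere)
        * ∫ r : Ioi (0 : ℝ), (r : ℝ) ^ k * ρ r
          ∂(Measure.volumeIoiPow (Module.finrank ℝ (E n) - 1)) :=
        integral_prod_mul (fun w : sphere (0 : E n) 1 => φ (w : E n))
          (fun r : Ioi (0 : ℝ) => (r : ℝ) ^ k * ρ r)
    _ = _ := by
        congr 1
        simp only [Measure.volumeIoiPow, ENNReal.ofReal]
        rw [hdim, integral_withDensity_eq_integral_smul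
          ((measurable_subtype_coe.pow_const _).real_toNNReal),
          integral_subtype_comap measurableSet_Ioi
            fun a : ℝ ↦ Real.toNNReal (a ^ (n - 1)) • (a ^ k * ρ a)]
        refine setIntegral_congr_fun measurableSet_Ioi fun x hx => ?_
        have hx0 : (0 : ℝ) ≤ x := le_of_lt hx
        simp only [NNReal.smul_def, Real.coe_toNNReal _ (pow_nonneg hx0 _), smul_eq_mul]
        rw [pow_add]; ring

/-- rotation invariance of surface measure (all isometries, reflections included). -/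
theorem sphere_integral_comp {n : ℕ} (θ : E n ≃ₗᵢ[ℝ] E n) (φ : E n → ℝ) :
    ∫ w : sphere (0 : E n) 1, φ (θ (w : E n)) ∂(volume : Measure (E n)).toSphere
      = ∫ w : sphere (0 : E n) 1, φ (w : E n) ∂(volume : Measure (E n)).toSphere := by
  rcases Nat.eq_zero_or_pos n with hn | hn
  · subst hn
    have : IsEmpty (sphere (0 : E 0) 1) := by
      refine ⟨fun w => ?_⟩
      have h1 : ‖(w : E 0)‖ = 1 := by simp
      have h2 : (w : E 0) = 0 := Subsingleton.elim _ _
      rw [h2] at h1; simp at h1
    rw [integral_of_isEmpty, integral_of_isEmpty]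
  set φ' : E n → ℝ := fun x => φ (‖x‖⁻¹ • x) with hφ'
  have hhom : ∀ c : ℝ, 0 < c → ∀ x, x ≠ 0 → φ' (c • x) = c ^ 0 * φ' x := by
    intro c hc x _
    simp only [hφ', norm_smul, Real.norm_eq_abs, abs_of_pos hc, pow_zero, one_mul, smul_smul]
    congr 2
    rw [mul_inv, mul_right_comm, inv_mul_cancel₀ hc.ne', one_mul]
  have hhom2 : ∀ c : ℝ, 0 < c → ∀ x, x ≠ 0 → (φ' ∘ θ) (c • x) = c ^ 0 * (φ' ∘ θ) x := by
    intro c hc x hx
    have := hhom c hc (θ x) (by simpa using hx)
    simpa using this
  set ρ : ℝ → ℝ := (Ioo (1 : ℝ) 2).indicator (fun _ => 1) with hρ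
  have h1 := integral_polar hn φ' 0 ρ hhom
  have h2 := integral_polar hn (φ' ∘ θ) 0 ρ hhom2
  have hmp : MeasurePreserving θ (volume : Measure (E n)) volume := θ.measurePreserving
  have h3 : ∫ x : E n, (φ' ∘ θ) x * ρ ‖x‖ = ∫ x : E n, φ' x * ρ ‖x‖ := by
    rw [← hmp.integral_comp θ.toHomeomorph.measurableEmbedding (fun x => φ' x * ρ ‖x‖)]
    refine integral_congr_ae (Filter.Eventually.of_forall fun x => ?_)
    simp
  have hK : 0 < ∫ r in Ioi (0 : ℝ), r ^ (n - 1 + 0) * ρ r := by
    have e : ∫ r in Ioi (0 : ℝ), r ^ (n - 1 + 0) * ρ r = ∫ r in Ioo (1 : ℝ) 2, r ^ (n - 1) := by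
      have : ∀ r : ℝ, r ^ (n - 1 + 0) * ρ r = (Ioo (1 : ℝ) 2).indicator (fun r => r ^ (n - 1)) r := by
        intro r
        by_cases hr : r ∈ Ioo (1 : ℝ) 2
        · simp [hρ, hr]
        · simp [hρ, hr]
      simp_rw [this]
      rw [setIntegral_indicator measurableSet_Ioo]
      congr 2
      ext r; simp only [mem_inter_iff, mem_Ioi, mem_Ioo]
      constructor
      · rintro ⟨_, h⟩; exact h
      · rintro ⟨h1, h2⟩; exact ⟨by linarith, h1, h2⟩
    rw [e, ← integral_Ioc_eq_integral_Ioo, ← intervalIntegral.integral_of_le (by norm_num)]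
    exact intervalIntegral.intervalIntegral_pos_of_pos_on
      (Continuous.intervalIntegrable (by fun_prop) _ _)
      (fun x hx => pow_pos (by linarith [hx.1]) _) (by norm_num)
  rw [h3, h1] at h2
  have h4 := mul_right_cancel₀ hK.ne' h2
  have e1 : ∀ w : sphere (0 : E n) 1, φ' (w : E n) = φ (w : E n) := by
    intro w
    have : ‖(w : E n)‖ = 1 := by simp
    simp [hφ', this]
  have e2 : ∀ w : sphere (0 : E n) 1, (φ' ∘ θ) (w : E n) = φ (θ (w : E n)) := by
    intro w
    have : ‖(w : E n)‖ = 1 := by simp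
    simp [hφ', this]
  simp_rw [e1, e2] at h4
  exact h4.symm

end Pool.Agent.Helper62.Mink
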