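import Mathlib

/-!
# Rotation-equivariant Minkowski endomorphisms: definitions

`E n` is Euclidean space, `supp K` the support function of a convex body,
`Admissible T` the maps of the question, `Generates e f T` says that the zonal density
`w ↦ f ⟨e, w⟩` on the unit sphere generates `T`.
-/

namespace Pool.Agent.Helper62.Mink

open MeasureTheory Metric Set
open scoped RealInnerProductSpace ContDiff

/-- The Euclidean space `ℝⁿ`. -/
abbrev E (n : ℕ) := EuclideanSpace ℝ (Fin n)

/-- The support function `h_K(u) = max_{x ∈ K} ⟨x, u⟩`. -/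
noncomputable def supp {n : ℕ} (K : ConvexBody (E n)) (u : E n) : ℝ :=
  sSup ((fun x : E n => (inner ℝ x u : ℝ)) '' (K : Set (E n)))

/-- The image `θ K` of a convex body under a linear isometry. -/
noncomputable def rot {n : ℕ} (θ : E n ≃ₗᵢ[ℝ] E n) (K : ConvexBody (E n)) :
    ConvexBody (E n) where
  carrier := θ '' (K : Set (E n))
  convex' := K.convex.linear_image θ.toLinearEquiv.toLinearMap
  isCompact' := K.isCompact.image θ.continuous
  nonempty' := K.nonempty.image _

/-- `θ` is a rotation, that is, an element of `SO(n)`. -/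
def IsRot {n : ℕ} (θ : E n ≃ₗᵢ[ℝ] E n) : Prop :=
  LinearMap.det (θ.toLinearEquiv.toLinearMap : E n →ₗ[ℝ] E n) = 1

/-- The admissible maps of the question: continuous for the Hausdorff metric, Minkowski
additive, and equivariant under `SO(n)`. -/
structure Admissible {n : ℕ} (T : ConvexBody (E n) → ConvexBody (E n)) : Prop where
  continuous : Continuous T
  additive : ∀ (K L : ConvexBody (E n)) (u : E n), supp (T (K + L)) u = supp (T K) u + supp (T L) u
  equivariant : ∀ θ : E n ≃ₗᵢ[ℝ] E n, IsRot θ → ∀ K, T (rot θ K) = rot θ (T K)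

/-- The zonal density `w ↦ f ⟨e, w⟩` (with respect to surface measure on the unit sphere, `e` the
pole) generates `T`: for every body `K` whose support function is `C^∞` (off the origin) and every
rotation `θ`, `h_{TK}(θ e) = ∫ h_K(θ w) f(⟨e, w⟩) dσ(w)`. -/
def Generates {n : ℕ} (e : E n) (f : ℝ → ℝ) (T : ConvexBody (E n) → ConvexBody (E n)) : Prop :=
  ∀ K : ConvexBody (E n), ContDiffOn ℝ ∞ (supp K) {0}ᶜ → ∀ θ : E n ≃ₗᵢ[ℝ] E n, IsRot θ →
    supp (T K) (θ e) =
      ∫ w : sphere (0 : E n) 1, supp K (θ (w : E n)) * f (inner ℝ e (w : E n))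
        ∂(volume : Measure (E n)).toSphere

/-- Sublinear functions. -/
structure Sublinear {n : ℕ} (h : E n → ℝ) : Prop where
  pos_hom : ∀ c : ℝ, 0 ≤ c → ∀ x, h (c • x) = c * h x
  add_le : ∀ x y, h (x + y) ≤ h x + h y

/-- `u ↦ ∫ h(w) |u| f(⟨u, w⟩ / |u|) dσ(w)`. -/
noncomputable def conv {n : ℕ} (h : E n → ℝ) (f : ℝ → ℝ) (u : E n) : ℝ :=
  ∫ w : sphere (0 : E n) 1, h w * (‖u‖ * f (inner ℝ u (w : E n) / ‖u‖))
    ∂(volume : Measure (E n)).toSphere

/-- The segment functional. -/
noncomputable def seg (n : ℕ) (f : ℝ → ℝ) : ℝ :=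
  ∫ θ in (0 : ℝ)..Real.pi, f (Real.cos θ) * Real.cos θ ^ 2 * Real.sin θ ^ (n - 3)

end Pool.Agent.Helper62.Mink
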