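import Pool.Agent.Helper62.Mink.Key4
import Pool.Agent.Helper62.Mink.Approx
import Pool.Agent.Helper15.Mink.Smooth
import Pool.Agent.Helper34.Mink.Line

namespace Pool.Agent.Helper62.Mink

open MeasureTheory Metric Set Polynomial
open scoped RealInnerProductSpace ContDiff NNReal

lemma inner_div_mem {n : ℕ} (x : E n) (w : sphere (0 : E n) 1) :
    (inner ℝ x (w : E n) : ℝ) / ‖x‖ ∈ Icc (-1 : ℝ) 1 := by
  rcases eq_or_ne x 0 with rfl | hx
  · simp
  · have hx' : 0 < ‖x‖ := norm_pos_iff.2 hx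
    have h1 := abs_real_inner_le_norm x (w : E n)
    have hw : ‖(w : E n)‖ = 1 := by simp
    rw [hw, mul_one] at h1
    have h2 : |(inner ℝ x (w : E n) : ℝ) / ‖x‖| ≤ 1 := by
      rw [abs_div, abs_of_pos hx']
      exact (div_le_one hx').2 h1
    exact ⟨(abs_le.1 h2).1, (abs_le.1 h2).2⟩

lemma conv_integrable {n : ℕ} {h : E n → ℝ} (hh : Continuous h) {f : ℝ → ℝ}
    (hf : ContinuousOn f (Icc (-1) 1)) (x : E n) :
    Integrable (fun w : sphere (0 : E n) 1 => h w * (‖x‖ * f (inner ℝ x (w : E n) / ‖x‖)))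
      (volume : Measure (E n)).toSphere := by
  have h1 : Continuous (fun w : sphere (0 : E n) 1 => (inner ℝ x (w : E n) : ℝ) / ‖x‖) := by
    fun_prop
  have h2 : Continuous (fun w : sphere (0 : E n) 1 => f (inner ℝ x (w : E n) / ‖x‖)) :=
    hf.comp_continuous h1 (inner_div_mem x)
  have h3 : Continuous (fun w : sphere (0 : E n) 1 =>
      h w * (‖x‖ * f (inner ℝ x (w : E n) / ‖x‖))) := by
    have := hh.comp (continuous_subtype_val (p := fun w => w ∈ sphere (0 : E n) 1))
    exact this.mul (continuous_const.mul h2)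
  exact h3.integrable_of_hasCompactSupport (HasCompactSupport.of_compactSpace _)

/-- total mass of the sphere -/
noncomputable def Sm (n : ℕ) : ℝ := ((volume : Measure (E n)).toSphere).real univ

lemma Sm_nonneg (n : ℕ) : 0 ≤ Sm n := measureReal_nonneg

lemma conv_close {n : ℕ} {h h' : E n → ℝ} (hh : Continuous h) (hh' : Continuous h') {f f' : ℝ → ℝ}
    (hf : ContinuousOn f (Icc (-1) 1)) (hf' : ContinuousOn f' (Icc (-1) 1)) {δ : ℝ}
    (hδ : ∀ w : E n, ‖w‖ = 1 → ∀ t ∈ Icc (-1 : ℝ) 1, |h w * f t - h' w * f' t| ≤ δ) (x : E n) :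
    |conv h f x - conv h' f' x| ≤ δ * ‖x‖ * Sm n := by
  unfold conv
  rw [← integral_sub (conv_integrable hh hf x) (conv_integrable hh' hf' x), ← Real.norm_eq_abs]
  refine norm_integral_le_of_norm_le_const (Filter.Eventually.of_forall fun w => ?_)
  have h1 := hδ w (by simp) _ (inner_div_mem x w)
  rw [Real.norm_eq_abs]
  have e : h w * (‖x‖ * f (inner ℝ x (w : E n) / ‖x‖))
      - h' w * (‖x‖ * f' (inner ℝ x (w : E n) / ‖x‖))
      = ‖x‖ * (h w * f (inner ℝ x (w : E n) / ‖x‖) - h' w * f' (inner ℝ x (w : E n) / ‖x‖)) := by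
    ring
  rw [e, abs_mul, abs_of_nonneg (norm_nonneg x), mul_comm δ]
  exact mul_le_mul_of_nonneg_left h1 (norm_nonneg x)

lemma le_of_eps {a b D : ℝ} (hD : 0 ≤ D) (h : ∀ ε : ℝ, 0 < ε → a ≤ b + ε * D) : a ≤ b := by
  refine le_of_forall_pos_le_add fun δ hδ => ?_
  have h1 := h (δ / (D + 1)) (by positivity)
  have h2 : δ / (D + 1) * D ≤ δ := by
    rw [div_mul_eq_mul_div, div_le_iff₀ (by linarith)]
    nlinarith
  linarith

/-- Subadditivity passes to limits. -/
lemma subadd_lim {n : ℕ} {h : E n → ℝ} (hh : Continuous h) {f : ℝ → ℝ}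
    (hf : ContinuousOn f (Icc (-1) 1)) {D : ℝ} (hD : 0 ≤ D)
    (H : ∀ ε : ℝ, 0 < ε → ∃ (h' : E n → ℝ) (f' : ℝ → ℝ), Continuous h' ∧
      ContinuousOn f' (Icc (-1) 1) ∧
      (∀ w : E n, ‖w‖ = 1 → ∀ t ∈ Icc (-1 : ℝ) 1, |h w * f t - h' w * f' t| ≤ ε * D) ∧
      ∀ x y, conv h' f' (x + y) ≤ conv h' f' x + conv h' f' y) (x y : E n) :
    conv h f (x + y) ≤ conv h f x + conv h f y := by
  refine le_of_eps (D := D * (‖x‖ + ‖y‖ + ‖x + y‖) * Sm n)
    (by have := Sm_nonneg n; positivity) fun ε hε => ?_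
  obtain ⟨h', f', hh', hf', hδ, hs⟩ := H ε hε
  have h1 := conv_close hh hh' hf hf' hδ (x + y)
  have h2 := conv_close hh hh' hf hf' hδ x
  have h3 := conv_close hh hh' hf hf' hδ y
  have h4 := hs x y
  rw [abs_le] at h1 h2 h3
  have e : ε * (D * (‖x‖ + ‖y‖ + ‖x + y‖) * Sm n)
      = ε * D * ‖x‖ * Sm n + ε * D * ‖y‖ * Sm n + ε * D * ‖x + y‖ * Sm n := by ring
  rw [e]
  linarith [h1.2, h2.1, h3.1]

lemma exists_bdd {f : ℝ → ℝ} (hf : ContinuousOn f (Icc (-1) 1)) :
    ∃ M : ℝ, 0 ≤ M ∧ ∀ t ∈ Icc (-1 : ℝ) 1, |f t| ≤ M := by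
  obtain ⟨M, hM⟩ := isCompact_Icc.exists_bound_of_continuousOn hf
  refine ⟨max M 0, le_max_right _ _, fun t ht => ?_⟩
  exact (hM t ht).trans (le_max_left _ _)

lemma exists_bdd_h {n : ℕ} {h : E n → ℝ} (hh : Continuous h) :
    ∃ M : ℝ, 0 ≤ M ∧ ∀ w : E n, ‖w‖ = 1 → |h w| ≤ M := by
  obtain ⟨M, hM⟩ := (isCompact_sphere (0 : E n) 1).exists_bound_of_continuousOn hh.continuousOn
  refine ⟨max M 0, le_max_right _ _, fun w hw => ?_⟩
  exact (hM w (by simpa using hw)).trans (le_max_left _ _)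

/-- Subadditivity for polynomial tight densities, all sublinear `h`. -/
theorem subadd_poly {n : ℕ} (hn : 3 ≤ n) {h : E n → ℝ} (hh : Sublinear h) (p : ℝ[X])
    (hp : ∀ x ∈ Icc (-1 : ℝ) 1, x * p.derivative.eval x ≤ p.eval x)
    (h0 : seg n (fun x => p.eval x) = 0) (x y : E n) :
    conv h (fun t => p.eval t) (x + y)
      ≤ conv h (fun t => p.eval t) x + conv h (fun t => p.eval t) y := by
  have hpc : ContinuousOn (fun t => p.eval t) (Icc (-1 : ℝ) 1) := p.continuous.continuousOn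
  obtain ⟨M, hM0, hM⟩ := exists_bdd hpc
  refine subadd_lim hh.continuous hpc hM0 (fun ε hε => ?_) x y
  obtain ⟨h', hs, hC, hclose⟩ := exists_smooth hh hε
  refine ⟨h', fun t => p.eval t, hs.continuous, hpc, ?_, ?_⟩
  · intro w hw t ht
    have h1 := hclose w
    rw [hw, mul_one] at h1
    rw [← sub_mul, abs_mul]
    have h2 : |h w - h' w| ≤ ε := by rw [abs_sub_comm]; exact h1
    exact mul_le_mul h2 (hM t ht) (abs_nonneg _) hε.le
  · exact conv_add_le_of_key (by omega) hs p
      (fun u v hu hv huv => key_pos hn hs hC p hp h0 u v hu hv huv)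

theorem subadd_tight {n : ℕ} (hn : 3 ≤ n) {h : E n → ℝ} (hh : Sublinear h) {f : ℝ → ℝ}
    (hf : ContinuousOn f (Icc (-1) 1))
    (hS : ∀ s ∈ Icc (0 : ℝ) 1, ∀ t ∈ Icc (-1 : ℝ) 1, s * f t ≤ f (s * t))
    (h0 : seg n f = 0) (x y : E n) :
    conv h f (x + y) ≤ conv h f x + conv h f y := by
  obtain ⟨M, hM0, hM⟩ := exists_bdd_h hh.continuous
  refine subadd_lim hh.continuous hf hM0 (fun ε hε => ?_) x y
  obtain ⟨p, hp1, hp2, hp3⟩ := exists_poly_seg hn hf hS h0 hε
  refine ⟨h, fun t => p.eval t, hh.continuous, p.continuous.continuousOn, ?_, ?_⟩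
  · intro w hw t ht
    rw [← mul_sub, abs_mul, mul_comm ε]
    refine mul_le_mul (hM w hw) ?_ (abs_nonneg _) hM0
    rw [abs_sub_comm]; exact hp1 t ht
  · exact subadd_poly hn hh p hp2 hp3

lemma conv_abs {n : ℕ} (h : E n → ℝ) (x : E n) :
    conv h (fun t => |t|) x = ∫ w : sphere (0 : E n) 1, h w * |(inner ℝ x (w : E n) : ℝ)|
      ∂(volume : Measure (E n)).toSphere := by
  unfold conv
  refine integral_congr_ae (Filter.Eventually.of_forall fun w => ?_)
  rcases eq_or_ne x 0 with rfl | hx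
  · simp
  · have hx' : 0 < ‖x‖ := norm_pos_iff.2 hx
    simp only [abs_div, abs_norm]
    field_simp

theorem subadd_abs {n : ℕ} {h : E n → ℝ} (hh : Sublinear h) (x y : E n) :
    conv h (fun t => |t|) (x + y) ≤ conv h (fun t => |t|) x + conv h (fun t => |t|) y := by
  have hi : ∀ z : E n, Integrable (fun w : sphere (0 : E n) 1 =>
      h w * |(inner ℝ z (w : E n) : ℝ)|) (volume : Measure (E n)).toSphere := by
    intro z
    exact sphere_integrable (φ := fun w => h w * |(inner ℝ z w : ℝ)|)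
      (hh.continuous.continuousOn.mul (by fun_prop))
  have hi' : ∀ z : E n, Integrable (fun w : sphere (0 : E n) 1 =>
      h (-(w : E n)) * |(inner ℝ z (w : E n) : ℝ)|) (volume : Measure (E n)).toSphere := by
    intro z
    exact sphere_integrable (φ := fun w => h (-w) * |(inner ℝ z w : ℝ)|)
      ((hh.continuous.comp continuous_neg).continuousOn.mul (by fun_prop))
  have key : ∀ z : E n, conv h (fun t => |t|) z
      = (1 / 2) * ∫ w : sphere (0 : E n) 1, (h w + h (-(w : E n))) * |(inner ℝ z (w : E n) : ℝ)|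
        ∂(volume : Measure (E n)).toSphere := by
    intro z
    have e1 := sphere_integral_comp (LinearIsometryEquiv.neg ℝ (E := E n))
      (fun w => h w * |(inner ℝ z w : ℝ)|)
    simp only [LinearIsometryEquiv.coe_neg, inner_neg_right, abs_neg] at e1
    rw [conv_abs]
    simp_rw [add_mul]
    rw [integral_add (hi z) (hi' z), e1]
    ring
  rw [key, key, key, ← mul_add, ← integral_add]
  · refine mul_le_mul_of_nonneg_left ?_ (by norm_num)
    refine integral_mono ?_ ?_ fun w => ?_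
    · simp_rw [add_mul]; exact (hi _).add (hi' _)
    · have : Integrable (fun w : sphere (0 : E n) 1 =>
        (h w + h (-(w : E n))) * |(inner ℝ x (w : E n) : ℝ)|) (volume : Measure (E n)).toSphere := by
        simp_rw [add_mul]; exact (hi _).add (hi' _)
      refine this.add ?_
      simp_rw [add_mul]; exact (hi _).add (hi' _)
    · have h1 : 0 ≤ h w + h (-(w : E n)) := by
        have := hh.add_le (w : E n) (-(w : E n))
        rw [add_neg_cancel, hh.map_zero] at this
        exact this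
      show (h w + h (-(w : E n))) * |(inner ℝ (x + y) (w : E n) : ℝ)|
        ≤ (h w + h (-(w : E n))) * |(inner ℝ x (w : E n) : ℝ)|
          + (h w + h (-(w : E n))) * |(inner ℝ y (w : E n) : ℝ)|
      rw [← mul_add, inner_add_left]
      exact mul_le_mul_of_nonneg_left (abs_add_le _ _) h1
  · simp_rw [add_mul]; exact (hi _).add (hi' _)
  · simp_rw [add_mul]; exact (hi _).add (hi' _)

lemma conv_add_f {n : ℕ} {h : E n → ℝ} (hh : Continuous h) {f g : ℝ → ℝ}
    (hf : ContinuousOn f (Icc (-1) 1)) (hg : ContinuousOn g (Icc (-1) 1)) (x : E n) :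
    conv h (fun t => f t + g t) x = conv h f x + conv h g x := by
  unfold conv
  rw [← integral_add (conv_integrable hh hf x) (conv_integrable hh hg x)]
  refine integral_congr_ae (Filter.Eventually.of_forall fun w => ?_)
  simp only; ring

lemma conv_smul_f {n : ℕ} (h : E n → ℝ) (f : ℝ → ℝ) (c : ℝ) (x : E n) :
    conv h (fun t => c * f t) x = c * conv h f x := by
  unfold conv
  rw [← integral_const_mul]
  refine integral_congr_ae (Filter.Eventually.of_forall fun w => ?_)
  simp only; ring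

/-- Sufficiency on the class. -/
theorem subadd_main {n : ℕ} (hn : 3 ≤ n) {h : E n → ℝ} (hh : Sublinear h) {f : ℝ → ℝ}
    (hf : ContinuousOn f (Icc (-1) 1))
    (hS : ∀ s ∈ Icc (0 : ℝ) 1, ∀ t ∈ Icc (-1 : ℝ) 1, s * f t ≤ f (s * t))
    (h0 : 0 ≤ seg n f) (x y : E n) :
    conv h f (x + y) ≤ conv h f x + conv h f y := by
  have habs : ContinuousOn (fun t : ℝ => |t|) (Icc (-1) 1) := continuous_abs.continuousOn
  have hpos : 0 < seg n (fun t => |t|) := by
    refine lt_of_lt_of_le (seg_sq_pos n) (seg_mono (by fun_prop) habs fun t ht => ?_)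
    have : |t| ≤ 1 := abs_le.2 ht
    rw [← sq_abs]
    nlinarith [abs_nonneg t]
  set c := seg n f / seg n (fun t => |t|) with hc
  have hc0 : 0 ≤ c := div_nonneg h0 hpos.le
  have hca : ∀ c : ℝ, ContinuousOn (fun t : ℝ => c * |t|) (Icc (-1) 1) := fun c =>
    continuousOn_const.mul habs
  have hf0 : ContinuousOn (fun t => f t + (-c) * |t|) (Icc (-1) 1) := hf.add (hca _)
  have hseg : seg n (fun t => f t + (-c) * |t|) = 0 := by
    rw [seg_add hf (hca (-c)), seg_const_mul, hc, neg_mul, div_mul_cancel₀ _ hpos.ne']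
    ring
  have hS0 : ∀ s ∈ Icc (0 : ℝ) 1, ∀ t ∈ Icc (-1 : ℝ) 1,
      s * (f t + (-c) * |t|) ≤ f (s * t) + (-c) * |s * t| := by
    intro s hs t ht
    have h1 := hS s hs t ht
    rw [abs_mul, abs_of_nonneg hs.1]
    linarith
  have h1 := subadd_tight hn hh hf0 hS0 hseg x y
  have h2 := subadd_abs hh x y
  have e : ∀ z : E n, conv h f z = conv h (fun t => f t + (-c) * |t|) z
      + c * conv h (fun t => |t|) z := by
    intro z
    rw [← conv_smul_f, ← conv_add_f hh.continuous hf0 (hca c)]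
    congr 1
    funext t; ring
  rw [e, e, e]
  have := mul_le_mul_of_nonneg_left h2 hc0
  linarith

/-- A concave function with nonnegative segment integral is nonnegative at the origin. -/
lemma concave_zero {n : ℕ} {f : ℝ → ℝ} (hf : ContinuousOn f (Icc (-1) 1))
    (hc : ConcaveOn ℝ (Icc (-1) 1) f) (h0 : 0 ≤ seg n f) : 0 ≤ f 0 := by
  have hneg : ContinuousOn (fun t => f (-t)) (Icc (-1) 1) := by
    refine hf.comp continuous_neg.continuousOn fun t ht => ?_
    exact ⟨by linarith [ht.2], by linarith [ht.1]⟩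
  have e1 : seg n (fun t => f (-t)) = seg n f := by
    unfold seg
    have := intervalIntegral.integral_comp_sub_left (a := 0) (b := Real.pi)
      (fun θ => f (Real.cos θ) * Real.cos θ ^ 2 * Real.sin θ ^ (n - 3)) Real.pi
    simp only [sub_self, sub_zero, Real.cos_pi_sub, Real.sin_pi_sub] at this
    rw [← this]
    refine intervalIntegral.integral_congr fun θ _ => ?_
    simp only; ring
  have h1 : seg n (fun t => f t + f (-t)) ≤ seg n (fun _ => 2 * f 0) := by
    refine seg_mono (hf.add hneg) continuousOn_const fun t ht => ?_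
    have ht' : -t ∈ Icc (-1 : ℝ) 1 := ⟨by linarith [ht.2], by linarith [ht.1]⟩
    have := hc.2 ht ht' (show (0 : ℝ) ≤ 1 / 2 by norm_num) (show (0 : ℝ) ≤ 1 / 2 by norm_num)
      (by norm_num)
    simp only [smul_eq_mul] at this
    have e : 1 / 2 * t + 1 / 2 * (-t) = 0 := by ring
    rw [e] at this
    linarith
  rw [seg_add hf hneg, e1] at h1
  have e2 : seg n (fun _ => 2 * f 0) = 2 * f 0 * seg n (fun _ => 1) := by
    rw [← seg_const_mul]; simp
  rw [e2] at h1
  have h3 := seg_one_pos n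
  by_contra hlt
  push Not at hlt
  nlinarith

lemma concave_star {f : ℝ → ℝ} (hc : ConcaveOn ℝ (Icc (-1) 1) f) (h0 : 0 ≤ f 0) :
    ∀ s ∈ Icc (0 : ℝ) 1, ∀ t ∈ Icc (-1 : ℝ) 1, s * f t ≤ f (s * t) := by
  intro s hs t ht
  have := hc.2 ht (show (0 : ℝ) ∈ Icc (-1 : ℝ) 1 by constructor <;> norm_num) hs.1
    (show 0 ≤ 1 - s by linarith [hs.2]) (by ring)
  simp only [smul_eq_mul, mul_zero, add_zero] at this
  have h1 : 0 ≤ (1 - s) * f 0 := mul_nonneg (by linarith [hs.2]) h0
  linarith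

end Pool.Agent.Helper62.Mink
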