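import Pool.Agent.Helper62.Mink.Final1
import Pool.Agent.Helper71.Mink.Support

namespace Pool.Agent.Helper62.Mink

open MeasureTheory Metric Set Polynomial
open scoped RealInnerProductSpace ContDiff NNReal

/-- change of variables in `conv` -/
lemma conv_rot {n : ℕ} (θ : E n ≃ₗᵢ[ℝ] E n) (h : E n → ℝ) (f : ℝ → ℝ) (x : E n) :
    conv (fun w => h (θ.symm w)) f x = conv h f (θ.symm x) := by
  unfold conv
  have e := sphere_integral_comp θ.symm
    (fun w => h w * (‖θ.symm x‖ * f (inner ℝ (θ.symm x) w / ‖θ.symm x‖)))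
  rw [← e]
  refine integral_congr_ae (Filter.Eventually.of_forall fun w => ?_)
  simp only [LinearIsometryEquiv.norm_map, LinearIsometryEquiv.inner_map_map]

/-- `SO(n)` acts transitively on the unit sphere. -/
lemma exists_rot {n : ℕ} (hn : 2 ≤ n) {e u : E n} (he : ‖e‖ = 1) (hu : ‖u‖ = 1) :
    ∃ θ : E n ≃ₗᵢ[ℝ] E n, IsRot θ ∧ θ e = u := by
  by_cases heu : e = u
  · refine ⟨LinearIsometryEquiv.refl ℝ (E n), ?_, by simpa using heu⟩
    unfold IsRot
    have : ((LinearIsometryEquiv.refl ℝ (E n)).toLinearEquiv.toLinearMap : E n →ₗ[ℝ] E n)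
        = LinearMap.id := rfl
    rw [this, LinearMap.det_id]
  · have hdim : Module.finrank ℝ (E n) = n := by simp
    have hsub : e - u ≠ 0 := sub_ne_zero.2 heu
    -- a vector orthogonal to `e`
    obtain ⟨a, ha0, hae⟩ : ∃ a : E n, a ≠ 0 ∧ (inner ℝ a e : ℝ) = 0 := by
      have hlt : Module.finrank ℝ (ℝ ∙ e : Submodule ℝ (E n)) < Module.finrank ℝ (E n) := by
        refine lt_of_le_of_lt (finrank_span_le_card ({e} : Set (E n))) ?_
        simp; omega
      have hne : (ℝ ∙ e : Submodule ℝ (E n))ᗮ ≠ ⊥ := by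
        intro hbot
        rw [Submodule.orthogonal_eq_bot_iff] at hbot
        rw [hbot, finrank_top] at hlt
        exact lt_irrefl _ hlt
      obtain ⟨a, ha, ha0⟩ := Submodule.exists_mem_ne_zero_of_ne_bot hne
      refine ⟨a, ha0, ?_⟩
      rw [real_inner_comm]
      exact (Submodule.mem_orthogonal_singleton_iff_inner_right).1 ha
    set R1 : E n ≃ₗᵢ[ℝ] E n := ((ℝ ∙ (e - u))ᗮ).reflection with hR1
    set R2 : E n ≃ₗᵢ[ℝ] E n := ((ℝ ∙ a)ᗮ).reflection with hR2
    have hd : ∀ v : E n, v ≠ 0 →
        LinearMap.det ((((ℝ ∙ v)ᗮ).reflection).toLinearEquiv.toLinearMap : E n →ₗ[ℝ] E n) = -1 := by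
      intro v hv
      have h1 := Submodule.det_reflection (𝕜 := ℝ) ((ℝ ∙ v)ᗮ)
      rw [Submodule.orthogonal_orthogonal, finrank_span_singleton hv, pow_one] at h1
      exact h1
    refine ⟨R2.trans R1, ?_, ?_⟩
    · unfold IsRot
      have e1 : ((R2.trans R1).toLinearEquiv.toLinearMap : E n →ₗ[ℝ] E n)
          = (R1.toLinearEquiv.toLinearMap : E n →ₗ[ℝ] E n) ∘ₗ
            (R2.toLinearEquiv.toLinearMap : E n →ₗ[ℝ] E n) := rfl
      rw [e1, LinearMap.det_comp, hR1, hR2, hd _ hsub, hd _ ha0]
      norm_num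
    · rw [LinearIsometryEquiv.trans_apply]
      have h2 : R2 e = e := by
        rw [hR2]
        refine Submodule.reflection_mem_subspace_eq_self ?_
        rw [Submodule.mem_orthogonal_singleton_iff_inner_right]
        exact hae
      rw [h2, hR1]
      exact Submodule.reflection_sub (by rw [he, hu])

/-- Existence of the endomorphism from subadditivity. -/
theorem exists_admissible {n : ℕ} {f : ℝ → ℝ} (hf : ContinuousOn f (Icc (-1) 1))
    (H : ∀ h : E n → ℝ, Sublinear h → ∀ x y, conv h f (x + y) ≤ conv h f x + conv h f y)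
    {e : E n} (he : ‖e‖ = 1) :
    ∃ T : ConvexBody (E n) → ConvexBody (E n), Admissible T ∧ Generates e f T := by
  have hsub : ∀ K : ConvexBody (E n), Sublinear (conv (supp K) f) := fun K =>
    ⟨fun c hc x => conv_smul _ _ hc x, H _ (supp_sublinear K)⟩
  choose T hT using fun K => exists_body (hsub K)
  have hsc : ∀ K : ConvexBody (E n), Continuous (supp K) := fun K => (supp_sublinear K).continuous
  refine ⟨T, ⟨?_, ?_, ?_⟩, ?_⟩
  · -- continuity
    obtain ⟨M, hM0, hM⟩ := exists_bdd hf
    have hlip : LipschitzWith (Real.toNNReal (M * Sm n)) T := by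
      refine LipschitzWith.of_dist_le_mul fun K L => ?_
      rw [Real.coe_toNNReal _ (mul_nonneg hM0 (Sm_nonneg n))]
      refine dist_le_of_supp (by have := Sm_nonneg n; positivity) fun u => ?_
      rw [hT, hT]
      have h1 := conv_close (hsc K) (hsc L) hf hf (δ := dist K L * M) (fun w hw t ht => by
        rw [← sub_mul, abs_mul]
        have h2 := abs_supp_sub_le K L w
        rw [hw, mul_one] at h2
        exact mul_le_mul h2 (hM t ht) (abs_nonneg _) dist_nonneg) u
      calc _ ≤ _ := h1
        _ = _ := by ring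
    exact hlip.continuous
  · intro K L u
    rw [hT, hT, hT]
    unfold conv
    rw [← integral_add (conv_integrable (hsc K) hf u) (conv_integrable (hsc L) hf u)]
    refine integral_congr_ae (Filter.Eventually.of_forall fun w => ?_)
    simp only [supp_add]; ring
  · intro θ _ K
    refine supp_inj ?_
    funext u
    rw [hT, supp_rot, hT]
    have : supp (rot θ K) = fun w => supp K (θ.symm w) := by
      funext w; exact supp_rot θ K w
    rw [this, conv_rot]
  · intro K _ θ _
    rw [hT]
    unfold conv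
    have e1 := sphere_integral_comp θ
      (fun w => supp K w * (‖θ e‖ * f (inner ℝ (θ e) w / ‖θ e‖)))
    rw [← e1]
    refine integral_congr_ae (Filter.Eventually.of_forall fun w => ?_)
    simp only [LinearIsometryEquiv.norm_map, LinearIsometryEquiv.inner_map_map, he, one_mul,
      div_one]

/-- Subadditivity for smooth `h` from the endomorphism. -/
theorem subadd_of_admissible {n : ℕ} (hn : 2 ≤ n) {f : ℝ → ℝ} {e : E n} (he : ‖e‖ = 1)
    {T : ConvexBody (E n) → ConvexBody (E n)} (hG : Generates e f T)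
    {h : E n → ℝ} (hh : Sublinear h) (hC : ContDiffOn ℝ ∞ h {0}ᶜ) (x y : E n) :
    conv h f (x + y) ≤ conv h f x + conv h f y := by
  obtain ⟨K, hK⟩ := exists_body hh
  have key : ∀ z : E n, supp (T K) z = conv h f z := by
    intro z
    rcases eq_or_ne z 0 with rfl | hz
    · rw [(supp_sublinear (T K)).map_zero]
      unfold conv; simp
    · have hz' : 0 < ‖z‖ := norm_pos_iff.2 hz
      obtain ⟨θ, hθ, hθe⟩ := exists_rot hn he (u := ‖z‖⁻¹ • z) (by
        rw [norm_smul, norm_inv, norm_norm, inv_mul_cancel₀ hz'.ne'])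
      have h1 := hG K (by rw [hK]; exact hC) θ hθ
      rw [hK] at h1
      have h2 : supp (T K) (θ e) = conv h f (θ e) := by
        rw [h1]
        unfold conv
        have e1 := sphere_integral_comp θ
          (fun w => h w * (‖θ e‖ * f (inner ℝ (θ e) w / ‖θ e‖)))
        rw [← e1]
        refine integral_congr_ae (Filter.Eventually.of_forall fun w => ?_)
        simp only [LinearIsometryEquiv.norm_map, LinearIsometryEquiv.inner_map_map, he, one_mul,
          div_one]
      rw [hθe] at h2
      have h3 : z = ‖z‖ • (‖z‖⁻¹ • z) := by rw [smul_smul, mul_inv_cancel₀ hz'.ne', one_smul]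
      rw [h3, (supp_sublinear (T K)).pos_hom _ hz'.le, conv_smul _ _ hz'.le, h2]
  rw [← key, ← key, ← key]
  exact (supp_sublinear (T K)).add_le x y

end Pool.Agent.Helper62.Mink
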