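import Pool.Agent.Helper62.Mink.Final2
import Pool.Agent.Helper15.Mink.Nec

namespace Pool.Agent.Helper62.Mink

open MeasureTheory Metric Set

theorem segment_test (n : ℕ) (hn : 3 ≤ n) (e : E n) (he : ‖e‖ = 1) (f : ℝ → ℝ)
    (hf : ContinuousOn f (Icc (-1) 1))
    (h : ∃ T : ConvexBody (E n) → ConvexBody (E n), Admissible T ∧ Generates e f T)
    (r : ℝ) (hr : r ∈ Icc (0 : ℝ) 1) :
    0 ≤ ∫ θ in (0 : ℝ)..Real.pi,
      f (r * Real.cos θ) * Real.cos θ ^ 2 * Real.sin θ ^ (n - 3) := by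
  obtain ⟨T, _, hG⟩ := h
  exact seg_nonneg_of_conv hn hf
    (fun h hh hC x y => subadd_of_admissible (by omega) he hG hh hC x y) hr

theorem star_density (n : ℕ) (hn : 3 ≤ n) (e : E n) (he : ‖e‖ = 1) (f : ℝ → ℝ)
    (hf : ContinuousOn f (Icc (-1) 1))
    (hS : ConcaveOn ℝ (Icc (-1) 1) f ∨
      ∀ s ∈ Icc (0 : ℝ) 1, ∀ t ∈ Icc (-1 : ℝ) 1, s * f t ≤ f (s * t)) :
    (∃ T : ConvexBody (E n) → ConvexBody (E n), Admissible T ∧ Generates e f T) ↔
      0 ≤ ∫ θ in (0 : ℝ)..Real.pi, f (Real.cos θ) * Real.cos θ ^ 2 * Real.sin θ ^ (n - 3) := by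
  constructor
  · intro h
    have := segment_test n hn e he f hf h 1 ⟨zero_le_one, le_rfl⟩
    simpa using this
  · intro h
    have h' : 0 ≤ seg n f := h
    have hstar : ∀ s ∈ Icc (0 : ℝ) 1, ∀ t ∈ Icc (-1 : ℝ) 1, s * f t ≤ f (s * t) := by
      rcases hS with hc | hS
      · exact concave_star hc (concave_zero hf hc h')
      · exact hS
    exact exists_admissible hf (fun h hh x y => subadd_main hn hh hf hstar h' x y) he

end Pool.Agent.Helper62.Mink
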