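import Pool.Agent.Helper62.Mink.Basic

namespace Pool.Agent.Helper62.Mink

open MeasureTheory Metric Set
open scoped RealInnerProductSpace ContDiff NNReal

/-- second directional derivative -/
noncomputable def D2 {n : ℕ} (f : E n → ℝ) (e x : E n) : ℝ :=
  fderiv ℝ (fun y => fderiv ℝ f y e) x e

lemma isOpen_ne {n : ℕ} : IsOpen ({0}ᶜ : Set (E n)) := isOpen_compl_singleton

lemma cda {n : ℕ} {h : E n → ℝ} (hC : ContDiffOn ℝ ∞ h {0}ᶜ) {x : E n} (hx : x ≠ 0) :
    ContDiffAt ℝ ∞ h x := hC.contDiffAt (isOpen_ne.mem_nhds hx)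

lemma cda1 {n : ℕ} {h : E n → ℝ} (hC : ContDiffOn ℝ ∞ h {0}ᶜ) (e : E n) {x : E n} (hx : x ≠ 0) :
    ContDiffAt ℝ ∞ (fun y => fderiv ℝ h y e) x := by
  have h1 : ContDiffAt ℝ ∞ (fderiv ℝ h) x :=
    (cda hC hx).fderiv_right (m := ∞) (by simp)
  exact h1.clm_apply contDiffAt_const

lemma cda2 {n : ℕ} {h : E n → ℝ} (hC : ContDiffOn ℝ ∞ h {0}ᶜ) (e : E n) {x : E n} (hx : x ≠ 0) :
    ContDiffAt ℝ ∞ (D2 h e) x := by
  have h1 : ContDiffOn ℝ ∞ (fun y => fderiv ℝ h y e) {0}ᶜ := fun y hy =>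
    (cda1 hC e hy).contDiffWithinAt
  exact cda1 h1 e hx

lemma cont_mul {n : ℕ} {a W : E n → ℝ} (ha : ∀ x, x ≠ 0 → ContinuousAt a x) (hW : Continuous W)
    (hW0 : tsupport W ⊆ {0}ᶜ) : Continuous (fun x => a x * W x) := by
  refine continuous_of_tsupport fun x hx => ?_
  have hx' : x ∈ tsupport W := tsupport_mul_subset_right hx
  exact (ha x (hW0 hx')).mul hW.continuousAt

lemma int_mul {n : ℕ} {a W : E n → ℝ} (ha : ∀ x, x ≠ 0 → ContinuousAt a x) (hW : Continuous W)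
    (hWc : HasCompactSupport W) (hW0 : tsupport W ⊆ {0}ᶜ) :
    Integrable (fun x => a x * W x) (volume : Measure (E n)) :=
  (cont_mul ha hW hW0).integrable_of_hasCompactSupport hWc.mul_left

/-- Integration by parts twice. -/
lemma ibp2 {n : ℕ} {h W : E n → ℝ} (hC : ContDiffOn ℝ ∞ h {0}ᶜ) (hW : ContDiff ℝ ∞ W)
    (hWc : HasCompactSupport W) (hW0 : tsupport W ⊆ {0}ᶜ) (e : E n) :
    ∫ x, D2 h e x * W x = ∫ x, h x * D2 W e x := by
  have hW1 : ContDiff ℝ ∞ (fun y => fderiv ℝ W y e) :=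
    (hW.fderiv_right (m := ∞) (by simp)).clm_apply contDiff_const
  have hW2 : ContDiff ℝ ∞ (D2 W e) :=
    (hW1.fderiv_right (m := ∞) (by simp)).clm_apply contDiff_const
  have t1 : tsupport (fun y => fderiv ℝ W y e) ⊆ tsupport W := tsupport_fderiv_apply_subset ℝ e
  have c1 : HasCompactSupport (fun y => fderiv ℝ W y e) := hWc.fderiv_apply ℝ e
  have t2 : tsupport (D2 W e) ⊆ tsupport W :=
    (tsupport_fderiv_apply_subset ℝ e (f := fun y => fderiv ℝ W y e)).trans t1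
  have c2 : HasCompactSupport (D2 W e) := c1.fderiv_apply ℝ e
  have s1 := integral_mul_fderiv_eq_neg_fderiv_mul_of_integrable
    (μ := (volume : Measure (E n))) (f := h) (g := fun y => fderiv ℝ W y e) (v := e)
    (int_mul (fun x hx => (cda1 hC e hx).continuousAt) hW1.continuous c1 (t1.trans hW0))
    (int_mul (fun x hx => (cda hC hx).continuousAt) hW2.continuous c2 (t2.trans hW0))
    (int_mul (fun x hx => (cda hC hx).continuousAt) hW1.continuous c1 (t1.trans hW0))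
    (fun x hx => (cda hC (hW0 (t1 hx))).differentiableAt (by simp))
    (fun x _ => hW1.differentiable (by simp) x)
  have s2 := integral_mul_fderiv_eq_neg_fderiv_mul_of_integrable
    (μ := (volume : Measure (E n))) (f := fun y => fderiv ℝ h y e) (g := W) (v := e)
    (int_mul (fun x hx => (cda2 hC e hx).continuousAt) hW.continuous hWc hW0)
    (int_mul (fun x hx => (cda1 hC e hx).continuousAt) hW1.continuous c1 (t1.trans hW0))
    (int_mul (fun x hx => (cda1 hC e hx).continuousAt) hW.continuous hWc hW0)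
    (fun x hx => (cda1 hC e (hW0 hx)).differentiableAt (by simp))
    (fun x _ => hW.differentiable (by simp) x)
  unfold D2 at *
  rw [s1, s2, neg_neg]

/-- homogeneity of derivatives -/
lemma fderiv_hom {n : ℕ} {h : E n → ℝ} (hh : Sublinear h) {c : ℝ} (hc : 0 < c) (x : E n) :
    fderiv ℝ h (c • x) = fderiv ℝ h x := by
  have h1 : fderiv ℝ (fun y => h (c • y)) x = c • fderiv ℝ h (c • x) := fderiv_comp_smul c
  have h2 : (fun y => h (c • y)) = c • h := by
    funext y; rw [hh.pos_hom c hc.le y]; rfl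
  rw [h2, fderiv_const_smul_field] at h1
  exact (smul_right_injective _ hc.ne' h1).symm

lemma D2_hom {n : ℕ} {h : E n → ℝ} (hh : Sublinear h) {c : ℝ} (hc : 0 < c) (e x : E n) :
    D2 h e (c • x) = c⁻¹ * D2 h e x := by
  unfold D2
  have h1 : fderiv ℝ (fun y => (fun z => fderiv ℝ h z e) (c • y)) x
      = c • fderiv ℝ (fun z => fderiv ℝ h z e) (c • x) :=
    fderiv_comp_smul (f := fun z => fderiv ℝ h z e) c
  have h2 : (fun y => (fun z => fderiv ℝ h z e) (c • y)) = fun z => fderiv ℝ h z e := by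
    funext y; simp only [fderiv_hom hh hc]
  rw [h2] at h1
  rw [h1]
  simp [hc.ne']

/-! ### the radial weight -/

/-- the radial bump -/
noncomputable def bmp : ContDiffBump (5 / 2 : ℝ) := ⟨1 / 2, 1, by norm_num, by norm_num⟩

/-- continuous functions supported in `[3/2, 7/2]` -/
structure Good (g : ℝ → ℝ) : Prop where
  cont : Continuous g
  zero : ∀ s, s ∉ Icc (3 / 2 : ℝ) (7 / 2) → g s = 0

lemma Good.deriv {g : ℝ → ℝ} (hg : Good g) (hs : ContDiff ℝ ∞ g) : Good (deriv g) := by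
  refine ⟨(hs.iterate_deriv 1).continuous, fun s hs' => ?_⟩
  have h1 : tsupport g ⊆ Icc (3 / 2 : ℝ) (7 / 2) := by
    refine closure_minimal (fun x hx => ?_) isClosed_Icc
    by_contra hx'
    exact hx (hg.zero x hx')
  by_contra hne
  exact hs' (h1 (support_deriv_subset hne))

lemma bmp_smooth : ContDiff ℝ ∞ (bmp : ℝ → ℝ) := bmp.contDiff

lemma dbmp_smooth : ContDiff ℝ ∞ (deriv (bmp : ℝ → ℝ)) := by
  have := bmp_smooth.iterate_deriv 1
  simpa using this

lemma ddbmp_smooth : ContDiff ℝ ∞ (deriv (deriv (bmp : ℝ → ℝ))) := by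
  have := dbmp_smooth.iterate_deriv 1
  simpa using this

lemma good_bmp : Good (bmp : ℝ → ℝ) := by
  refine ⟨bmp.continuous, fun s hs => ?_⟩
  refine bmp.zero_of_le_dist ?_
  rw [Real.dist_eq]
  show (1 : ℝ) ≤ _
  by_contra hlt
  push Not at hlt
  rw [abs_lt] at hlt
  exact hs ⟨by linarith [hlt.1], by linarith [hlt.2]⟩

lemma good_dbmp : Good (deriv (bmp : ℝ → ℝ)) := good_bmp.deriv bmp_smooth

lemma good_ddbmp : Good (deriv (deriv (bmp : ℝ → ℝ))) := good_dbmp.deriv dbmp_smooth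

/-- radial moments -/
noncomputable def Kr (a : ℕ) : ℝ := ∫ r in Ioi (0 : ℝ), r ^ a * bmp (r ^ 2)

lemma Good.integrable {g : ℝ → ℝ} (hg : Good g) (a : ℕ) :
    Integrable (fun r : ℝ => r ^ a * g (r ^ 2)) := by
  have hc : Continuous (fun r : ℝ => r ^ a * g (r ^ 2)) := by
    have := hg.cont; fun_prop
  refine hc.integrable_of_hasCompactSupport ?_
  refine HasCompactSupport.intro (isCompact_Icc (a := (-2 : ℝ)) (b := 2)) fun r hr => ?_
  have : r ^ 2 ∉ Icc (3 / 2 : ℝ) (7 / 2) := by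
    intro h
    apply hr
    constructor <;> nlinarith [h.2, h.1]
  rw [hg.zero _ this, mul_zero]

lemma Good.deriv_moment {g : ℝ → ℝ} (hg : Good g) (hs : ContDiff ℝ ∞ g) (a : ℕ) :
    ∫ r in Ioi (0 : ℝ), r ^ (a + 2) * (_root_.deriv g) (r ^ 2)
      = -((a + 1 : ℝ) / 2) * ∫ r in Ioi (0 : ℝ), r ^ a * g (r ^ 2) := by
  have hd : ∀ r : ℝ, HasDerivAt (fun r : ℝ => r ^ (a + 1) * g (r ^ 2))
      ((a + 1 : ℝ) * (r ^ a * g (r ^ 2)) + 2 * (r ^ (a + 2) * (_root_.deriv g) (r ^ 2))) r := by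
    intro r
    have h1 : HasDerivAt (fun r : ℝ => r ^ (a + 1)) ((a + 1 : ℝ) * r ^ a) r := by
      simpa using hasDerivAt_pow (a + 1) r
    have h2 : HasDerivAt (fun r : ℝ => r ^ 2) (2 * r) r := by
      simpa using hasDerivAt_pow 2 r
    have h3 : HasDerivAt g (_root_.deriv g (r ^ 2)) (r ^ 2) :=
      (hs.differentiable (by simp) _).hasDerivAt
    have h5 : HasDerivAt (fun r : ℝ => g (r ^ 2)) (_root_.deriv g (r ^ 2) * (2 * r)) r :=
      HasDerivAt.comp (h := fun r : ℝ => r ^ 2) r h3 h2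
    refine ((h1.mul h5).congr_deriv ?_)
    ring
  have i1 := (hg.integrable a).integrableOn (s := Ioi (0 : ℝ))
  have i2 := ((hg.deriv hs).integrable (a + 2)).integrableOn (s := Ioi (0 : ℝ))
  have hint : IntegrableOn (fun r : ℝ => (a + 1 : ℝ) * (r ^ a * g (r ^ 2))
      + 2 * (r ^ (a + 2) * (_root_.deriv g) (r ^ 2))) (Ioi 0) :=
    (i1.const_mul _).add (i2.const_mul _)
  have hlim : Filter.Tendsto (fun r : ℝ => r ^ (a + 1) * g (r ^ 2)) Filter.atTop (nhds 0) := by
    refine tendsto_const_nhds.congr' ?_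
    filter_upwards [Filter.eventually_gt_atTop (2 : ℝ)] with r hr
    have : r ^ 2 ∉ Icc (3 / 2 : ℝ) (7 / 2) := by
      intro h
      nlinarith [h.2]
    rw [hg.zero _ this, mul_zero]
  have key := integral_Ioi_of_hasDerivAt_of_tendsto' (a := (0 : ℝ)) (fun r _ => hd r) hint hlim
  rw [integral_add (i1.const_mul _) (i2.const_mul _), integral_const_mul, integral_const_mul] at key
  simp only [ne_eq, Nat.add_eq_zero_iff, one_ne_zero, and_false, not_false_eq_true, zero_pow,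
    zero_mul, sub_zero] at key
  linarith

lemma Kr_d (a : ℕ) : ∫ r in Ioi (0 : ℝ), r ^ (a + 2) * (deriv (bmp : ℝ → ℝ)) (r ^ 2)
    = -((a + 1 : ℝ) / 2) * Kr a := good_bmp.deriv_moment bmp_smooth a

lemma Kr_dd (a : ℕ) : ∫ r in Ioi (0 : ℝ), r ^ (a + 4) * (deriv (deriv (bmp : ℝ → ℝ))) (r ^ 2)
    = ((a + 3 : ℝ) * (a + 1) / 4) * Kr a := by
  have h1 := good_dbmp.deriv_moment dbmp_smooth (a + 2)
  rw [Kr_d] at h1
  push_cast at h1
  have e : a + 2 + 2 = a + 4 := rfl
  rw [e] at h1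
  rw [h1]; ring

lemma Kr_pos (a : ℕ) : 0 < Kr a := by
  have h1 : ∫ r in Icc (3 / 2 : ℝ) (8 / 5), r ^ a * bmp (r ^ 2) ≤ Kr a := by
    refine setIntegral_mono_set (good_bmp.integrable a).integrableOn ?_ ?_
    · refine (ae_restrict_iff' measurableSet_Ioi).2 (Filter.Eventually.of_forall fun r hr => ?_)
      exact mul_nonneg (pow_nonneg (le_of_lt hr) _) bmp.nonneg
    · refine Filter.Eventually.of_forall fun r hr => ?_
      exact lt_of_lt_of_le (by norm_num) hr.1
  have h2 : ∫ r in Icc (3 / 2 : ℝ) (8 / 5), (1 : ℝ)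
      ≤ ∫ r in Icc (3 / 2 : ℝ) (8 / 5), r ^ a * bmp (r ^ 2) := by
    refine setIntegral_mono_on ?_ (good_bmp.integrable a).integrableOn measurableSet_Icc ?_
    · simp
    · intro r hr
      have hb : bmp (r ^ 2) = 1 := by
        refine bmp.one_of_mem_closedBall ?_
        rw [mem_closedBall, Real.dist_eq]
        show _ ≤ (1 / 2 : ℝ)
        rw [abs_le]
        constructor <;> nlinarith [hr.1, hr.2]
      rw [hb, mul_one]
      exact one_le_pow₀ (by linarith [hr.1])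
  have h3 : ∫ r in Icc (3 / 2 : ℝ) (8 / 5), (1 : ℝ) = 1 / 10 := by
    simp; norm_num
  linarith

end Pool.Agent.Helper62.Mink
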