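import Pool.Agent.Helper62.Mink.Ident

namespace Pool.Agent.Helper62.Mink

open MeasureTheory Metric Set
open scoped RealInnerProductSpace ContDiff NNReal

lemma lineD {n : ℕ} {f : E n → ℝ} {x e : E n} (hf : DifferentiableAt ℝ f x) {d : ℝ}
    (hd : HasDerivAt (fun τ : ℝ => f (x + τ • e)) d 0) : fderiv ℝ f x e = d := by
  rw [← hf.lineDeriv_eq_fderiv]
  exact hd.deriv

lemma hasDerivAt_inner_line {n : ℕ} (u x e : E n) :
    HasDerivAt (fun τ : ℝ => (inner ℝ u (x + τ • e) : ℝ)) (inner ℝ u e) 0 := by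
  have h1 : (fun τ : ℝ => (inner ℝ u (x + τ • e) : ℝ))
      = fun τ => (inner ℝ u x : ℝ) + τ * inner ℝ u e := by
    funext τ; rw [inner_add_right, inner_smul_right]
  rw [h1]
  simpa using ((hasDerivAt_id (0 : ℝ)).mul_const (inner ℝ u e : ℝ)).const_add (inner ℝ u x : ℝ)

lemma hasDerivAt_normsq_line {n : ℕ} (x e : E n) :
    HasDerivAt (fun τ : ℝ => ‖x + τ • e‖ ^ 2) (2 * inner ℝ x e) 0 := by
  have h1 : (fun τ : ℝ => ‖x + τ • e‖ ^ 2)
      = fun τ => ‖x‖ ^ 2 + τ * (2 * inner ℝ x e) + τ ^ 2 * ‖e‖ ^ 2 := by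
    funext τ
    rw [norm_add_sq_real, norm_smul, inner_smul_right, mul_pow, Real.norm_eq_abs, sq_abs]
    ring
  rw [h1]
  have h2 := (((hasDerivAt_id (0 : ℝ)).mul_const (2 * inner ℝ x e : ℝ)).const_add
    (‖x‖ ^ 2)).add ((hasDerivAt_pow 2 (0 : ℝ)).mul_const (‖e‖ ^ 2))
  refine (h2.congr_deriv ?_)
  simp

lemma hasDerivAt_rad_line {n : ℕ} {g : ℝ → ℝ} (hg : Differentiable ℝ g) (x e : E n) :
    HasDerivAt (fun τ : ℝ => g (‖x + τ • e‖ ^ 2)) (deriv g (‖x‖ ^ 2) * (2 * inner ℝ x e)) 0 := by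
  have h3 : HasDerivAt g (deriv g (‖x‖ ^ 2)) (‖x + (0 : ℝ) • e‖ ^ 2) := by
    simpa using (hg (‖x‖ ^ 2)).hasDerivAt
  exact HasDerivAt.comp (h := fun τ : ℝ => ‖x + τ • e‖ ^ 2) 0 h3 (hasDerivAt_normsq_line x e)

/-- monomial -/
noncomputable def mono {n : ℕ} (u v : E n) (i j : ℕ) (x : E n) : ℝ := (inner ℝ v x) ^ i * (inner ℝ u x) ^ j

lemma mono_smooth {n : ℕ} (u v : E n) (i j : ℕ) : ContDiff ℝ ∞ (mono u v i j) := by
  unfold mono
  exact ((contDiff_const.inner ℝ contDiff_id).pow i).mul ((contDiff_const.inner ℝ contDiff_id).pow j)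

lemma mono_hom {n : ℕ} (u v : E n) (i j : ℕ) (c : ℝ) (x : E n) :
    mono u v i j (c • x) = c ^ (i + j) * mono u v i j x := by
  unfold mono
  rw [inner_smul_right, inner_smul_right, mul_pow, mul_pow, pow_add]; ring

/-- the test function -/
noncomputable def Wf {n : ℕ} (u v : E n) (j : ℕ) (x : E n) : ℝ :=
  mono u v 2 j x * bmp (‖x‖ ^ 2)

lemma normsq_smooth {n : ℕ} : ContDiff ℝ ∞ (fun x : E n => ‖x‖ ^ 2) := contDiff_norm_sq ℝ

lemma Wf_smooth {n : ℕ} (u v : E n) (j : ℕ) : ContDiff ℝ ∞ (Wf u v j) :=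
  (mono_smooth u v 2 j).mul (bmp_smooth.comp normsq_smooth)

lemma good_tsupport {n : ℕ} {g : ℝ → ℝ} (hg : Good g) (P : E n → ℝ) :
    tsupport (fun x : E n => P x * g (‖x‖ ^ 2)) ⊆ {0}ᶜ := by
  have h1 : tsupport (fun x : E n => P x * g (‖x‖ ^ 2)) ⊆ {x | 3 / 2 ≤ ‖x‖ ^ 2} := by
    refine closure_minimal (fun x hx => ?_) (isClosed_le continuous_const (by fun_prop))
    by_contra hx'
    simp only [mem_ofPred_eq, not_le] at hx'
    apply hx
    show P x * g (‖x‖ ^ 2) = 0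
    rw [hg.zero _ (fun h => absurd h.1 (not_le.2 hx')), mul_zero]
  intro x hx h0
  have := h1 hx
  simp only [mem_singleton_iff] at h0
  rw [h0] at this
  simp only [mem_ofPred_eq, norm_zero] at this
  norm_num at this

lemma good_compact {n : ℕ} {g : ℝ → ℝ} (hg : Good g) (P : E n → ℝ) :
    HasCompactSupport (fun x : E n => P x * g (‖x‖ ^ 2)) := by
  refine HasCompactSupport.intro (isCompact_closedBall (0 : E n) 2) fun x hx => ?_
  have h2 : 2 < ‖x‖ := by simpa using hx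
  rw [hg.zero _ (fun h => by nlinarith [h.2]), mul_zero]

lemma good_integrable {n : ℕ} {g : ℝ → ℝ} (hg : Good g) {a P : E n → ℝ}
    (ha : ∀ x, x ≠ 0 → ContinuousAt a x) (hP : Continuous P) :
    Integrable (fun x : E n => a x * (P x * g (‖x‖ ^ 2))) :=
  int_mul ha (hP.mul (hg.cont.comp (by fun_prop))) (good_compact hg P) (good_tsupport hg P)

lemma fderiv_Wf {n : ℕ} (u v : E n) (j : ℕ) (e x : E n) :
    fderiv ℝ (Wf u v j) x e =
      (2 * inner ℝ v x * inner ℝ v e * (inner ℝ u x) ^ j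
        + (inner ℝ v x) ^ 2 * (j * (inner ℝ u x) ^ (j - 1) * inner ℝ u e)) * bmp (‖x‖ ^ 2)
      + (inner ℝ v x) ^ 2 * (inner ℝ u x) ^ j
        * (deriv (bmp : ℝ → ℝ) (‖x‖ ^ 2) * (2 * inner ℝ x e)) := by
  refine lineD ((Wf_smooth u v j).differentiable (by simp) x) ?_
  have hv := (hasDerivAt_inner_line v x e).fun_pow 2
  have hu := (hasDerivAt_inner_line u x e).fun_pow j
  have hb := hasDerivAt_rad_line (bmp_smooth.differentiable (by simp)) x e
  have := ((hv.fun_mul hu).fun_mul hb)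
  unfold Wf mono
  refine this.congr_deriv ?_
  simp

lemma D2_Wf {n : ℕ} (u v : E n) (j : ℕ) (e x : E n) :
    D2 (Wf u v j) e x =
      (2 * (inner ℝ v e) ^ 2 * (inner ℝ u x) ^ j
        + 4 * j * inner ℝ v x * inner ℝ v e * inner ℝ u e * (inner ℝ u x) ^ (j - 1)
        + j * (j - 1) * (inner ℝ v x) ^ 2 * (inner ℝ u e) ^ 2 * (inner ℝ u x) ^ (j - 2))
        * bmp (‖x‖ ^ 2)
      + (2 * inner ℝ v x * inner ℝ v e * (inner ℝ u x) ^ j
        + (inner ℝ v x) ^ 2 * (j * (inner ℝ u x) ^ (j - 1) * inner ℝ u e))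
        * (4 * inner ℝ x e) * deriv (bmp : ℝ → ℝ) (‖x‖ ^ 2)
      + (inner ℝ v x) ^ 2 * (inner ℝ u x) ^ j
        * (4 * (inner ℝ x e) ^ 2 * deriv (deriv (bmp : ℝ → ℝ)) (‖x‖ ^ 2)
          + 2 * ‖e‖ ^ 2 * deriv (bmp : ℝ → ℝ) (‖x‖ ^ 2)) := by
  have hsm : ContDiff ℝ ∞ (fun y => fderiv ℝ (Wf u v j) y e) :=
    ((Wf_smooth u v j).fderiv_right (m := ∞) (by simp)).clm_apply contDiff_const
  refine lineD (hsm.differentiable (by simp) x) ?_
  simp_rw [fderiv_Wf]
  have hv1 := hasDerivAt_inner_line v x e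
  have hv := (hasDerivAt_inner_line v x e).fun_pow 2
  have hu := (hasDerivAt_inner_line u x e).fun_pow j
  have hu1 := (hasDerivAt_inner_line u x e).fun_pow (j - 1)
  have hb := hasDerivAt_rad_line (bmp_smooth.differentiable (by simp)) x e
  have hdb := hasDerivAt_rad_line (dbmp_smooth.differentiable (by simp)) x e
  have hx : HasDerivAt (fun τ : ℝ => (inner ℝ (x + τ • e) e : ℝ)) (inner ℝ e e) 0 := by
    have := hasDerivAt_inner_line e x e
    simp_rw [real_inner_comm _ e] at this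
    simpa [real_inner_comm] using this
  have A := ((((hv1.const_mul (2 : ℝ)).mul_const (inner ℝ v e : ℝ)).fun_mul hu).fun_add
    (hv.fun_mul ((hu1.const_mul (j : ℝ)).mul_const (inner ℝ u e : ℝ)))).fun_mul hb
  have B := (hv.fun_mul hu).fun_mul (hdb.fun_mul (hx.const_mul (2 : ℝ)))
  refine (A.fun_add B).congr_deriv ?_
  simp only [zero_smul, add_zero, real_inner_self_eq_norm_sq]
  rcases j with _ | _ | j
  · simp; ring
  · simp; ring
  · simp only [Nat.add_sub_cancel, Nat.cast_add, Nat.cast_one, Nat.cast_ofNat]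
    have e1 : j + 1 + 1 - 2 = j := by omega
    rw [e1]
    simp only [show (2 : ℕ) - 1 = 1 from rfl, pow_one]
    push_cast
    ring

end Pool.Agent.Helper62.Mink
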