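import Pool.Agent.Helper62.Mink.Ident2

namespace Pool.Agent.Helper62.Mink

open MeasureTheory Metric Set
open scoped RealInnerProductSpace ContDiff NNReal

/-- sphere integral -/
noncomputable def SI {n : ℕ} (φ : E n → ℝ) : ℝ :=
  ∫ w : sphere (0 : E n) 1, φ w ∂(volume : Measure (E n)).toSphere

/-- Laplacian -/
noncomputable def Lap {n : ℕ} (h : E n → ℝ) (x : E n) : ℝ :=
  ∑ i : Fin n, D2 h (EuclideanSpace.basisFun (Fin n) ℝ i) x

lemma term_h {n : ℕ} (hn : 1 ≤ n) {h : E n → ℝ} (hh : Sublinear h) (u v : E n) (i j : ℕ)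
    (g : ℝ → ℝ) :
    ∫ x, h x * (mono u v i j x * g (‖x‖ ^ 2))
      = SI (fun x => h x * mono u v i j x) * ∫ r in Ioi (0 : ℝ), r ^ (n - 1 + (i + j + 1)) * g (r ^ 2) := by
  have := integral_polar hn (fun x => h x * mono u v i j x) (i + j + 1) (fun r => g (r ^ 2))
    (fun c hc x _ => by rw [hh.pos_hom c hc.le, mono_hom]; ring)
  rw [SI, ← this]
  refine integral_congr_ae (Filter.Eventually.of_forall fun x => ?_)
  simp only; ring

lemma term_D {n : ℕ} (hn : 1 ≤ n) {h : E n → ℝ} (hh : Sublinear h) (u v e : E n) (j : ℕ) :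
    ∫ x, D2 h e x * Wf u v j x
      = SI (fun x => D2 h e x * mono u v 2 j x) * Kr (n - 1 + (j + 1)) := by
  have := integral_polar hn (fun x => D2 h e x * mono u v 2 j x) (j + 1)
    (fun r => bmp (r ^ 2))
    (fun c hc x _ => by
      rw [D2_hom hh hc, mono_hom, show 2 + j = (j + 1) + 1 by ring, pow_succ c (j + 1)]
      field_simp)
  rw [SI, Kr, ← this]
  refine integral_congr_ae (Filter.Eventually.of_forall fun x => ?_)
  simp only [Wf]; ring

lemma mono_cont {n : ℕ} (u v : E n) (i j : ℕ) : Continuous (mono u v i j) :=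
  (mono_smooth u v i j).continuous

lemma int_lin3 {n : ℕ} (a b c : ℝ) {f g k : E n → ℝ} (hf : Integrable f) (hg : Integrable g)
    (hk : Integrable k) :
    ∫ x, (a * f x + (b * g x + c * k x)) = a * (∫ x, f x) + (b * (∫ x, g x) + c * ∫ x, k x) := by
  have h1 : Integrable (fun x => b * g x + c * k x) := (hg.const_mul b).add (hk.const_mul c)
  rw [integral_add (hf.const_mul a) h1, integral_add (hg.const_mul b) (hk.const_mul c),
    integral_const_mul, integral_const_mul, integral_const_mul]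

lemma int_lin4 {n : ℕ} (a b c d : ℝ) {f g k l : E n → ℝ} (hf : Integrable f) (hg : Integrable g)
    (hk : Integrable k) (hl : Integrable l) :
    ∫ x, (a * f x + (b * g x + (c * k x + d * l x)))
      = a * (∫ x, f x) + (b * (∫ x, g x) + (c * (∫ x, k x) + d * ∫ x, l x)) := by
  have h1 : Integrable (fun x => c * k x + d * l x) := (hk.const_mul c).add (hl.const_mul d)
  have h2 : Integrable (fun x => b * g x + (c * k x + d * l x)) := (hg.const_mul b).add h1
  rw [integral_add (hf.const_mul a) h2, integral_add (hg.const_mul b) h1,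
    integral_add (hk.const_mul c) (hl.const_mul d),
    integral_const_mul, integral_const_mul, integral_const_mul, integral_const_mul]

theorem identB {n : ℕ} (hn : 1 ≤ n) {h : E n → ℝ} (hh : Sublinear h)
    (hC : ContDiffOn ℝ ∞ h {0}ᶜ) {u v : E n} (hu : (inner ℝ u u : ℝ) = 1)
    (huv : (inner ℝ u v : ℝ) = 0) (j : ℕ) :
    SI (fun x => D2 h u x * mono u v 2 j x)
      = j * (j - 1) * SI (fun x => h x * mono u v 2 (j - 2) x)
        - (2 * j + 1) * (j + n + 1) * SI (fun x => h x * mono u v 2 j x)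
        + (j + n + 1) * (j + n + 3) * SI (fun x => h x * mono u v 2 (j + 2) x) := by
  have hK := Kr_pos (n - 1 + (j + 1))
  have key := ibp2 hC (Wf_smooth u v j) (good_compact good_bmp _) (good_tsupport good_bmp _) u
  rw [term_D hn hh] at key
  have hcast : ((n - 1 + (j + 1) : ℕ) : ℝ) = n + j := by
    rw [Nat.cast_add, Nat.cast_sub hn]; push_cast; ring
  have hpt : ∀ x : E n, h x * D2 (Wf u v j) u x
      = (j * (j - 1) : ℝ) * (h x * (mono u v 2 (j - 2) x * bmp (‖x‖ ^ 2)))
        + ((4 * j + 2 : ℝ) * (h x * (mono u v 2 j x * deriv (bmp : ℝ → ℝ) (‖x‖ ^ 2)))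
        + 4 * (h x * (mono u v 2 (j + 2) x * deriv (deriv (bmp : ℝ → ℝ)) (‖x‖ ^ 2)))) := by
    intro x
    rw [D2_Wf]
    have h1 : (inner ℝ v u : ℝ) = 0 := by rw [real_inner_comm]; exact huv
    have h2 : (inner ℝ x u : ℝ) = inner ℝ u x := real_inner_comm _ _
    have h3 : ‖u‖ ^ 2 = 1 := by rw [← real_inner_self_eq_norm_sq, hu]
    have h4 : (j : ℝ) * (inner ℝ u x) ^ (j - 1) * inner ℝ u x = j * (inner ℝ u x) ^ j := by
      rcases j with _ | j
      · simp
      · simp only [Nat.add_sub_cancel]; rw [pow_succ]; ring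
    rw [h1, h2, h3, hu]
    unfold mono
    simp only [mul_zero, zero_mul, add_zero, zero_add, one_pow, mul_one, ne_eq,
      OfNat.ofNat_ne_zero, not_false_eq_true, zero_pow]
    have h5 : (inner ℝ v x) ^ 2 * (j * (inner ℝ u x) ^ (j - 1)) * (4 * inner ℝ u x)
        * deriv (bmp : ℝ → ℝ) (‖x‖ ^ 2)
        = 4 * (inner ℝ v x) ^ 2 * (j * (inner ℝ u x) ^ j) * deriv (bmp : ℝ → ℝ) (‖x‖ ^ 2) := by
      rw [← h4]; ring
    rw [h5, pow_add (inner ℝ u x : ℝ) j 2]
    ring
  have hc : ∀ x : E n, x ≠ 0 → ContinuousAt h x := fun x hx => (cda hC hx).continuousAt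
  have i1 := good_integrable good_bmp hc (mono_cont u v 2 (j - 2))
  have i2 := good_integrable good_dbmp hc (mono_cont u v 2 j)
  have i3 := good_integrable good_ddbmp hc (mono_cont u v 2 (j + 2))
  simp_rw [hpt] at key
  rw [int_lin3 _ _ _ i1 i2 i3, term_h hn hh, term_h hn hh, term_h hn hh] at key
  have m2 := Kr_d (n - 1 + (j + 1))
  have m3 := Kr_dd (n - 1 + (j + 1))
  have e2 : n - 1 + (2 + j + 1) = n - 1 + (j + 1) + 2 := by ring
  have e3 : n - 1 + (2 + (j + 2) + 1) = n - 1 + (j + 1) + 4 := by ring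
  rw [e2, e3, m2, m3, hcast] at key
  have m1 : (j * (j - 1) : ℝ) * (SI (fun x => h x * mono u v 2 (j - 2) x) *
      ∫ r in Ioi (0 : ℝ), r ^ (n - 1 + (2 + (j - 2) + 1)) * bmp (r ^ 2))
      = (j * (j - 1) : ℝ) * (SI (fun x => h x * mono u v 2 (j - 2) x) * Kr (n - 1 + (j + 1))) := by
    rcases j with _ | _ | j
    · simp
    · simp
    · have : 2 + (j + 1 + 1 - 2) + 1 = j + 1 + 1 + 1 := by omega
      rw [this, Kr]
  rw [m1] at key
  have key2 : SI (fun x => D2 h u x * mono u v 2 j x) * Kr (n - 1 + (j + 1))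
      = (j * (j - 1) * SI (fun x => h x * mono u v 2 (j - 2) x)
        - (2 * j + 1) * (j + n + 1) * SI (fun x => h x * mono u v 2 j x)
        + (j + n + 1) * (j + n + 3) * SI (fun x => h x * mono u v 2 (j + 2) x))
        * Kr (n - 1 + (j + 1)) := by
    rw [key]; ring
  exact mul_right_cancel₀ hK.ne' key2

theorem identA {n : ℕ} (hn : 1 ≤ n) {h : E n → ℝ} (hh : Sublinear h)
    (hC : ContDiffOn ℝ ∞ h {0}ᶜ) {u v : E n} (hu : (inner ℝ u u : ℝ) = 1)
    (hv : (inner ℝ v v : ℝ) = 1) (huv : (inner ℝ u v : ℝ) = 0) (j : ℕ) :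
    SI (fun x => Lap h x * mono u v 2 j x)
      = j * (j - 1) * SI (fun x => h x * mono u v 2 (j - 2) x)
        - (j + 1) * (j + n + 1) * SI (fun x => h x * mono u v 2 j x)
        + 2 * SI (fun x => h x * mono u v 0 j x) := by
  classical
  have hK := Kr_pos (n - 1 + (j + 1))
  set b := EuclideanSpace.basisFun (Fin n) ℝ with hb
  have key : ∀ i : Fin n, ∫ x, D2 h (b i) x * Wf u v j x = ∫ x, h x * D2 (Wf u v j) (b i) x :=
    fun i => ibp2 hC (Wf_smooth u v j) (good_compact good_bmp _) (good_tsupport good_bmp _) (b i)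
  have hc : ∀ x : E n, x ≠ 0 → ContinuousAt h x := fun x hx => (cda hC hx).continuousAt
  have hcast : ((n - 1 + (j + 1) : ℕ) : ℝ) = n + j := by
    rw [Nat.cast_add, Nat.cast_sub hn]; push_cast; ring
  -- left side
  have hL : ∑ i : Fin n, ∫ x, D2 h (b i) x * Wf u v j x
      = SI (fun x => Lap h x * mono u v 2 j x) * Kr (n - 1 + (j + 1)) := by
    rw [← integral_finsetSum _ (fun i _ => by
      exact int_mul (fun x hx => (cda2 hC (b i) hx).continuousAt) (Wf_smooth u v j).continuous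
        (good_compact good_bmp _) (good_tsupport good_bmp _))]
    have := integral_polar hn (fun x => Lap h x * mono u v 2 j x) (j + 1)
      (fun r => bmp (r ^ 2))
      (fun c hc x _ => by
        have : Lap h (c • x) = c⁻¹ * Lap h x := by
          unfold Lap; rw [Finset.mul_sum]
          exact Finset.sum_congr rfl fun i _ => D2_hom hh hc _ _
        rw [this, mono_hom, show 2 + j = (j + 1) + 1 by ring, pow_succ c (j + 1)]
        field_simp)
    rw [SI, Kr, ← this]
    refine integral_congr_ae (Filter.Eventually.of_forall fun x => ?_)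
    simp only [Wf, Lap, Finset.sum_mul]
    exact Finset.sum_congr rfl fun i _ => by ring
  -- right side
  have hpt : ∀ x : E n, ∑ i : Fin n, h x * D2 (Wf u v j) (b i) x
      = 2 * (h x * (mono u v 0 j x * bmp (‖x‖ ^ 2)))
        + ((j * (j - 1) : ℝ) * (h x * (mono u v 2 (j - 2) x * bmp (‖x‖ ^ 2)))
        + ((4 * (j + 2) + 2 * n : ℝ) * (h x * (mono u v 2 j x * deriv (bmp : ℝ → ℝ) (‖x‖ ^ 2)))
        + 4 * (h x * (mono u v 2 j x
          * ((fun s => s * deriv (deriv (bmp : ℝ → ℝ)) s) (‖x‖ ^ 2)))))) := by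
    intro x
    have svv : ∑ i : Fin n, (inner ℝ v (b i) : ℝ) ^ 2 = 1 := by
      rw [← hv, ← b.sum_inner_mul_inner v v]
      exact Finset.sum_congr rfl fun i _ => by rw [real_inner_comm v (b i)]; ring
    have suu : ∑ i : Fin n, (inner ℝ u (b i) : ℝ) ^ 2 = 1 := by
      rw [← hu, ← b.sum_inner_mul_inner u u]
      exact Finset.sum_congr rfl fun i _ => by rw [real_inner_comm u (b i)]; ring
    have svu : ∑ i : Fin n, (inner ℝ v (b i) : ℝ) * inner ℝ u (b i) = 0 := by
      rw [← huv, real_inner_comm, ← b.sum_inner_mul_inner v u]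
      exact Finset.sum_congr rfl fun i _ => by rw [real_inner_comm u (b i)]
    have svx : ∑ i : Fin n, (inner ℝ v (b i) : ℝ) * inner ℝ x (b i) = inner ℝ v x := by
      rw [← b.sum_inner_mul_inner v x]
      exact Finset.sum_congr rfl fun i _ => by rw [real_inner_comm x (b i)]
    have sux : ∑ i : Fin n, (inner ℝ u (b i) : ℝ) * inner ℝ x (b i) = inner ℝ u x := by
      rw [← b.sum_inner_mul_inner u x]
      exact Finset.sum_congr rfl fun i _ => by rw [real_inner_comm x (b i)]
    have sxx : ∑ i : Fin n, (inner ℝ x (b i) : ℝ) ^ 2 = ‖x‖ ^ 2 := by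
      rw [← real_inner_self_eq_norm_sq, ← b.sum_inner_mul_inner x x]
      exact Finset.sum_congr rfl fun i _ => by rw [real_inner_comm x (b i)]; ring
    have hj1 : (j : ℝ) * (inner ℝ u x) ^ (j - 1) * inner ℝ u x = j * (inner ℝ u x) ^ j := by
      rcases j with _ | j
      · simp
      · simp only [Nat.add_sub_cancel]; rw [pow_succ]; ring
    set U : ℝ := inner ℝ u x with hU
    set V : ℝ := inner ℝ v x with hV
    set β0 : ℝ := bmp (‖x‖ ^ 2)
    set β1 : ℝ := deriv (bmp : ℝ → ℝ) (‖x‖ ^ 2)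
    set β2 : ℝ := deriv (deriv (bmp : ℝ → ℝ)) (‖x‖ ^ 2)
    have e1 : ∀ i : Fin n, h x * D2 (Wf u v j) (b i) x
        = h x * (2 * U ^ j * β0) * (inner ℝ v (b i) : ℝ) ^ 2
          + h x * (4 * j * V * U ^ (j - 1) * β0) * ((inner ℝ v (b i) : ℝ) * inner ℝ u (b i))
          + h x * (j * (j - 1) * V ^ 2 * U ^ (j - 2) * β0) * (inner ℝ u (b i) : ℝ) ^ 2
          + h x * (8 * V * U ^ j * β1) * ((inner ℝ v (b i) : ℝ) * inner ℝ x (b i))
          + h x * (4 * V ^ 2 * (j * U ^ (j - 1)) * β1) * ((inner ℝ u (b i) : ℝ) * inner ℝ x (b i))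
          + h x * (4 * V ^ 2 * U ^ j * β2) * (inner ℝ x (b i) : ℝ) ^ 2
          + h x * (2 * V ^ 2 * U ^ j * β1) := by
      intro i
      have hb1 : ‖b i‖ = 1 := b.norm_eq_one i
      rw [D2_Wf, hb1]
      ring
    rw [Finset.sum_congr rfl fun i _ => e1 i]
    simp only [Finset.sum_add_distrib, ← Finset.mul_sum, Finset.sum_const, Finset.card_univ,
      Fintype.card_fin, nsmul_eq_mul]
    rw [svv, suu, svu, svx, sux, sxx]
    unfold mono
    rw [← hU, ← hV]
    have e2 : h x * (4 * V ^ 2 * (j * U ^ (j - 1)) * β1) * U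
        = h x * (4 * V ^ 2 * β1) * (j * U ^ (j - 1) * U) := by ring
    rw [e2, hj1]
    ring
  have gg : Good (fun s => s * deriv (deriv (bmp : ℝ → ℝ)) s) := by
    refine ⟨continuous_id.mul good_ddbmp.cont, fun s hs => ?_⟩
    rw [good_ddbmp.zero s hs, mul_zero]
  have i0 := good_integrable good_bmp hc (mono_cont u v 0 j)
  have i1 := good_integrable good_bmp hc (mono_cont u v 2 (j - 2))
  have i2 := good_integrable good_dbmp hc (mono_cont u v 2 j)
  have i3 := good_integrable gg hc (mono_cont u v 2 j)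
  have hW2 : ∀ e, ContDiff ℝ ∞ (D2 (Wf u v j) e) := fun e =>
    ((((Wf_smooth u v j).fderiv_right (m := ∞) (by simp)).clm_apply contDiff_const).fderiv_right
      (m := ∞) (by simp)).clm_apply contDiff_const
  have hR : ∑ i : Fin n, ∫ x, h x * D2 (Wf u v j) (b i) x
      = (j * (j - 1) * SI (fun x => h x * mono u v 2 (j - 2) x)
        - (j + 1) * (j + n + 1) * SI (fun x => h x * mono u v 2 j x)
        + 2 * SI (fun x => h x * mono u v 0 j x)) * Kr (n - 1 + (j + 1)) := by
    rw [← integral_finsetSum _ (fun i _ => by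
      have t1 : tsupport (fun y => fderiv ℝ (Wf u v j) y (b i)) ⊆ tsupport (Wf u v j) :=
        tsupport_fderiv_apply_subset ℝ _
      have t2 : tsupport (D2 (Wf u v j) (b i)) ⊆ tsupport (Wf u v j) :=
        (tsupport_fderiv_apply_subset ℝ _ (f := fun y => fderiv ℝ (Wf u v j) y (b i))).trans t1
      have c2 : HasCompactSupport (D2 (Wf u v j) (b i)) :=
        ((good_compact good_bmp _ : HasCompactSupport (Wf u v j)).fderiv_apply ℝ _).fderiv_apply ℝ _
      exact int_mul hc (hW2 _).continuous c2 (t2.trans (good_tsupport good_bmp _)))]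
    simp_rw [hpt]
    have t4 : ∫ x : E n, h x * (mono u v 2 j x * (‖x‖ ^ 2 * deriv (deriv (bmp : ℝ → ℝ)) (‖x‖ ^ 2)))
        = SI (fun x => h x * mono u v 2 j x) * ∫ r in Ioi (0 : ℝ), r ^ (n - 1 + (2 + j + 1))
          * (r ^ 2 * deriv (deriv (bmp : ℝ → ℝ)) (r ^ 2)) :=
      term_h hn hh u v 2 j (fun s => s * deriv (deriv (bmp : ℝ → ℝ)) s)
    rw [int_lin4 _ _ _ _ i0 i1 i2 i3, t4, term_h hn hh, term_h hn hh, term_h hn hh]
    have m2 := Kr_d (n - 1 + (j + 1))
    have m3 := Kr_dd (n - 1 + (j + 1))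
    have e0 : n - 1 + (0 + j + 1) = n - 1 + (j + 1) := by ring
    have e2 : n - 1 + (2 + j + 1) = n - 1 + (j + 1) + 2 := by ring
    have m3' : ∫ r in Ioi (0 : ℝ), r ^ (n - 1 + (j + 1) + 2)
        * (r ^ 2 * deriv (deriv (bmp : ℝ → ℝ)) (r ^ 2))
        = ((n - 1 + (j + 1) : ℕ) + 3 : ℝ) * ((n - 1 + (j + 1) : ℕ) + 1) / 4
          * Kr (n - 1 + (j + 1)) := by
      rw [← m3]
      refine integral_congr_ae (Filter.Eventually.of_forall fun r => ?_)
      simp only
      rw [show n - 1 + (j + 1) + 4 = n - 1 + (j + 1) + 2 + 2 from rfl, pow_add r _ 2]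
      ring
    have m1 : (j * (j - 1) : ℝ) * (SI (fun x => h x * mono u v 2 (j - 2) x) *
        ∫ r in Ioi (0 : ℝ), r ^ (n - 1 + (2 + (j - 2) + 1)) * bmp (r ^ 2))
        = (j * (j - 1) : ℝ) * (SI (fun x => h x * mono u v 2 (j - 2) x) * Kr (n - 1 + (j + 1))) := by
      rcases j with _ | _ | j
      · simp
      · simp
      · have : 2 + (j + 1 + 1 - 2) + 1 = j + 1 + 1 + 1 := by omega
        rw [this, Kr]
    rw [m1, e0, e2, m2, m3', hcast]
    change 2 * (_ * Kr (n - 1 + (j + 1))) + _ = _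
    ring
  have := hL.symm.trans ((Finset.sum_congr rfl fun i _ => key i).trans hR)
  exact mul_right_cancel₀ hK.ne' this

end Pool.Agent.Helper62.Mink
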