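import Pool.Agent.Helper62.Mink.Ident3

namespace Pool.Agent.Helper62.Mink

open MeasureTheory Metric Set Polynomial
open scoped RealInnerProductSpace ContDiff NNReal

lemma sphere_integrable {n : ℕ} {φ : E n → ℝ} (hφ : ContinuousOn φ (sphere 0 1)) :
    Integrable (fun w : sphere (0 : E n) 1 => φ w) (volume : Measure (E n)).toSphere := by
  have hc : Continuous (fun w : sphere (0 : E n) 1 => φ w) :=
    continuousOn_iff_continuous_domRestrict.1 hφ
  exact hc.integrable_of_hasCompactSupport (HasCompactSupport.of_compactSpace _)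

/-- linear functional on polynomials -/
noncomputable def SL {n : ℕ} (k : E n → ℝ) (hk : ContinuousOn k (sphere 0 1)) (u v : E n) (i : ℕ) :
    ℝ[X] →ₗ[ℝ] ℝ where
  toFun P := SI (fun x => k x * ((inner ℝ v x) ^ i * P.eval (inner ℝ u x)))
  map_add' P Q := by
    unfold SI
    rw [← integral_add]
    · refine integral_congr_ae (Filter.Eventually.of_forall fun w => ?_)
      simp only [eval_add]; ring
    · exact sphere_integrable (φ := fun x => k x * ((inner ℝ v x) ^ i * P.eval (inner ℝ u x)))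
        (hk.mul (by fun_prop))
    · exact sphere_integrable (φ := fun x => k x * ((inner ℝ v x) ^ i * Q.eval (inner ℝ u x)))
        (hk.mul (by fun_prop))
  map_smul' c P := by
    unfold SI
    rw [RingHom.id_apply, smul_eq_mul, ← integral_const_mul]
    refine integral_congr_ae (Filter.Eventually.of_forall fun w => ?_)
    simp only [eval_smul, smul_eq_mul]; ring

lemma SL_apply {n : ℕ} (k : E n → ℝ) (hk : ContinuousOn k (sphere 0 1)) (u v : E n) (i : ℕ)
    (P : ℝ[X]) : SL k hk u v i P = SI (fun x => k x * ((inner ℝ v x) ^ i * P.eval (inner ℝ u x))) :=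
  rfl

lemma SL_X_pow {n : ℕ} (k : E n → ℝ) (hk : ContinuousOn k (sphere 0 1)) (u v : E n) (i j : ℕ) :
    SL k hk u v i (X ^ j) = SI (fun x => k x * mono u v i j x) := by
  rw [SL_apply]
  unfold mono
  simp

lemma cont_h {n : ℕ} {h : E n → ℝ} (hC : ContDiffOn ℝ ∞ h {0}ᶜ) :
    ContinuousOn h (sphere 0 1) := fun x hx =>
  (cda hC (fun h0 => by simp [h0] at hx)).continuousAt.continuousWithinAt

lemma cont_D2 {n : ℕ} {h : E n → ℝ} (hC : ContDiffOn ℝ ∞ h {0}ᶜ) (e : E n) :
    ContinuousOn (D2 h e) (sphere 0 1) := fun x hx =>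
  (cda2 hC e (fun h0 => by simp [h0] at hx)).continuousAt.continuousWithinAt

lemma cont_Lap {n : ℕ} {h : E n → ℝ} (hC : ContDiffOn ℝ ∞ h {0}ᶜ) :
    ContinuousOn (Lap h) (sphere 0 1) := by
  unfold Lap
  exact continuousOn_finsetSum _ fun i _ => cont_D2 hC _

/-- The certificate data for a polynomial density. -/
structure Rep (n : ℕ) (p q α : ℝ[X]) : Prop where
  hq : (1 - X ^ 2) * derivative q - C ((n : ℝ) - 2) * X * q = X ^ 2 * p
  ha : (1 - X ^ 2) * (C (1 / 2) * (p - X * derivative p) + (1 - X ^ 2) * α)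
    = (1 + C (((n : ℝ) - 2) / 2) * X ^ 2) * p + C ((n : ℝ) * (n - 2) / 2) * X * q
  hop : ∀ (h : E n → ℝ) (_ : Sublinear h) (hC : ContDiffOn ℝ ∞ h {0}ᶜ) (u v : E n),
    (inner ℝ u u : ℝ) = 1 → (inner ℝ v v : ℝ) = 1 → (inner ℝ u v : ℝ) = 0 →
    SL h (cont_h hC) u v 0 (p - X * derivative p)
      + SL h (cont_h hC) u v 2 (derivative (derivative p))
    = SL (Lap h) (cont_Lap hC) u v 2 (C (1 / 2) * (p - X * derivative p))
      + SL (D2 h u) (cont_D2 hC u) u v 2 α

lemma Rep.lin {n : ℕ} {p₁ q₁ α₁ p₂ q₂ α₂ : ℝ[X]} (h1 : Rep n p₁ q₁ α₁) (h2 : Rep n p₂ q₂ α₂)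
    (a b : ℝ) : Rep n (C a * p₁ + C b * p₂) (C a * q₁ + C b * q₂) (C a * α₁ + C b * α₂) := by
  refine ⟨?_, ?_, ?_⟩
  · have e1 := h1.hq
    have e2 := h2.hq
    simp only [derivative_add, derivative_C_mul]
    linear_combination (C a) * e1 + (C b) * e2
  · have e1 := h1.ha
    have e2 := h2.ha
    simp only [derivative_add, derivative_C_mul]
    linear_combination (C a) * e1 + (C b) * e2
  · intro h hh hC u v hu hv huv
    have e1 := h1.hop h hh hC u v hu hv huv
    have e2 := h2.hop h hh hC u v hu hv huv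
    have r1 : C a * p₁ + C b * p₂ - X * derivative (C a * p₁ + C b * p₂)
        = a • (p₁ - X * derivative p₁) + b • (p₂ - X * derivative p₂) := by
      simp only [derivative_add, derivative_C_mul, smul_eq_C_mul]; ring
    have r2 : derivative (derivative (C a * p₁ + C b * p₂))
        = a • derivative (derivative p₁) + b • derivative (derivative p₂) := by
      simp only [derivative_add, derivative_C_mul, smul_eq_C_mul]
    have r3 : C (1 / 2) * (C a * p₁ + C b * p₂ - X * derivative (C a * p₁ + C b * p₂))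
        = a • (C (1 / 2) * (p₁ - X * derivative p₁)) + b • (C (1 / 2) * (p₂ - X * derivative p₂)) := by
      simp only [derivative_add, derivative_C_mul, smul_eq_C_mul]; ring
    have r4 : C a * α₁ + C b * α₂ = a • α₁ + b • α₂ := by
      simp only [smul_eq_C_mul]
    rw [r3, r1, r2, r4]
    simp only [map_add, map_smul, smul_eq_mul]
    linear_combination a * e1 + b * e2

lemma Rep.zero (n : ℕ) : Rep n 0 0 0 := by
  refine ⟨by simp, by simp, ?_⟩
  intro h hh hC u v hu hv huv
  simp

lemma rep_X {n : ℕ} (hn : 3 ≤ n) :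
    Rep n X (C (-(2 / ((n : ℝ) * (n - 2)))) * (1 + C (((n : ℝ) - 2) / 2) * X ^ 2)) 0 := by
  have hn' : (3 : ℝ) ≤ n := by exact_mod_cast hn
  have h1 : (n : ℝ) ≠ 0 := by positivity
  have h2 : (n : ℝ) - 2 ≠ 0 := by intro h; linarith
  refine ⟨?_, ?_, ?_⟩
  · refine Polynomial.funext fun r => ?_
    simp only [derivative_mul, derivative_C, derivative_add, derivative_one, derivative_X_pow,
      eval_sub, eval_add, eval_mul, eval_C, eval_X, eval_pow, eval_one, eval_zero]
    simp
    field_simp
    ring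
  · refine Polynomial.funext fun r => ?_
    simp only [derivative_X, eval_sub, eval_add, eval_mul, eval_C, eval_X, eval_pow, eval_one,
      eval_zero]
    field_simp
    ring
  · intro h hh hC u v hu hv huv
    simp

end Pool.Agent.Helper62.Mink
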