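import Pool.Agent.Helper62.Mink.Key1

namespace Pool.Agent.Helper62.Mink

open MeasureTheory Metric Set Polynomial
open scoped RealInnerProductSpace ContDiff NNReal

/-- the basis of the polynomials with vanishing segment integral -/
noncomputable def Fp (n m : ℕ) : ℝ[X] :=
  C ((m : ℝ) + n + 1) * X ^ (m + 2) - C ((m : ℝ) + 3) * X ^ m

lemma X_mul_der (m : ℕ) : (X : ℝ[X]) * derivative (X ^ m : ℝ[X]) = C (m : ℝ) * X ^ m := by
  rcases m with _ | m
  · simp
  · rw [derivative_X_pow]; simp only [Nat.add_sub_cancel, pow_succ]; ring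

lemma der_der (m : ℕ) : derivative (derivative (X ^ m : ℝ[X]))
    = C ((m : ℝ) * (m - 1)) * X ^ (m - 2) := by
  rcases m with _ | _ | m
  · simp
  · simp
  · simp only [derivative_X_pow, derivative_mul, derivative_C, zero_mul,
      zero_add, Nat.add_sub_cancel, Nat.reduceSubDiff]
    rw [← mul_assoc, ← C_mul]
    congr 2
    push_cast; ring

lemma Fp_der (n m : ℕ) : Fp n m - X * derivative (Fp n m)
    = C (-((m : ℝ) + n + 1) * (m + 1)) * X ^ (m + 2) + C (((m : ℝ) + 3) * (m - 1)) * X ^ m := by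
  unfold Fp
  have h1 := X_mul_der (m + 2)
  have h2 := X_mul_der m
  simp only [derivative_sub, derivative_C_mul]
  have e : X * (C ((m : ℝ) + n + 1) * derivative (X ^ (m + 2) : ℝ[X])
      - C ((m : ℝ) + 3) * derivative (X ^ m : ℝ[X]))
      = C ((m : ℝ) + n + 1) * (X * derivative (X ^ (m + 2) : ℝ[X]))
        - C ((m : ℝ) + 3) * (X * derivative (X ^ m : ℝ[X])) := by ring
  rw [e, h1, h2]
  simp only [C_mul, C_add, C_sub, C_neg, Nat.cast_add, Nat.cast_ofNat, map_one]
  simp only [map_natCast, map_ofNat]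
  ring

lemma Fp_der2 (n m : ℕ) : derivative (derivative (Fp n m))
    = C (((m : ℝ) + n + 1) * ((m + 2) * (m + 1))) * X ^ m
      - C (((m : ℝ) + 3) * (m * (m - 1))) * X ^ (m - 2) := by
  unfold Fp
  simp only [derivative_sub, derivative_C_mul]
  rw [der_der, der_der]
  simp only [Nat.add_sub_cancel]
  refine Polynomial.funext fun r => ?_
  simp only [eval_sub, eval_mul, eval_C, eval_X, eval_pow]
  push_cast; ring

lemma rep_F {n : ℕ} (hn : 3 ≤ n) (m : ℕ) :
    Rep n (Fp n m) (-X ^ (m + 3)) (C (-(((m : ℝ) + 1) * (m + 3) / 2)) * X ^ m) := by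
  refine ⟨?_, ?_, ?_⟩
  · unfold Fp
    refine Polynomial.funext fun r => ?_
    simp only [derivative_neg, derivative_X_pow, eval_sub, eval_mul, eval_C, eval_X,
      eval_pow, eval_one, eval_neg]
    push_cast
    rw [pow_add r m 3, pow_add r m 2]
    ring
  · rw [Fp_der]
    unfold Fp
    refine Polynomial.funext fun r => ?_
    simp only [eval_sub, eval_add, eval_mul, eval_C, eval_X, eval_pow, eval_one, eval_neg]
    rw [pow_add r m 3, pow_add r m 2]
    ring
  · intro h hh hC u v hu hv huv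
    have hn1 : 1 ≤ n := by omega
    have A1 := identA hn1 hh hC hu hv huv (m + 2)
    have A2 := identA hn1 hh hC hu hv huv m
    have B1 := identB hn1 hh hC hu huv m
    rw [Fp_der, Fp_der2]
    simp only [← smul_eq_C_mul, map_add, map_sub, map_smul, smul_eq_mul, SL_X_pow]
    rw [A1, A2, B1]
    simp only [Nat.add_sub_cancel]
    push_cast
    ring

/-- Every polynomial is a constant plus a representable polynomial. -/
lemma exists_rep {n : ℕ} (hn : 3 ≤ n) (p : ℝ[X]) :
    ∃ (c : ℝ) (q α : ℝ[X]), Rep n (p - C c) q α := by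
  have hmono : ∀ j : ℕ, ∃ (c : ℝ) (q α : ℝ[X]), Rep n (X ^ j - C c) q α := by
    intro j
    induction j using Nat.twoStepInduction with
    | zero => exact ⟨1, 0, 0, by simpa using Rep.zero n⟩
    | one => exact ⟨0, _, _, by simpa using rep_X hn⟩
    | more m ih _ =>
      obtain ⟨c, q, α, h⟩ := ih
      have hpos : ((m : ℝ) + n + 1) ≠ 0 := by positivity
      have h2 := (rep_F hn m).lin h (1 / ((m : ℝ) + n + 1)) (((m : ℝ) + 3) / ((m : ℝ) + n + 1))
      have e : C (1 / ((m : ℝ) + n + 1)) * Fp n m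
          + C (((m : ℝ) + 3) / ((m : ℝ) + n + 1)) * (X ^ m - C c)
          = X ^ (m + 2) - C (((m : ℝ) + 3) / ((m : ℝ) + n + 1) * c) := by
        unfold Fp
        refine Polynomial.funext fun r => ?_
        simp only [eval_sub, eval_add, eval_mul, eval_C, eval_X, eval_pow]
        field_simp
        ring
      rw [e] at h2
      exact ⟨_, _, _, h2⟩
  induction p using Polynomial.induction_on' with
  | add p₁ p₂ h1 h2 =>
    obtain ⟨c₁, q₁, α₁, h1⟩ := h1
    obtain ⟨c₂, q₂, α₂, h2⟩ := h2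
    have h3 := h1.lin h2 1 1
    have e : C 1 * (p₁ - C c₁) + C 1 * (p₂ - C c₂) = p₁ + p₂ - C (c₁ + c₂) := by
      simp only [C_add, map_one]; ring
    rw [e] at h3
    exact ⟨_, _, _, h3⟩
  | monomial j a =>
    obtain ⟨c, q, α, h⟩ := hmono j
    have h3 := h.lin (Rep.zero n) a 0
    have e : C a * (X ^ j - C c) + C 0 * 0 = monomial j a - C (a * c) := by
      rw [← C_mul_X_pow_eq_monomial]
      simp only [C_mul, mul_zero]; ring
    rw [e] at h3
    exact ⟨_, _, _, h3⟩

end Pool.Agent.Helper62.Mink
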