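import Pool.Agent.Helper62.Mink.Key2

namespace Pool.Agent.Helper62.Mink

open MeasureTheory Metric Set Polynomial
open scoped RealInnerProductSpace ContDiff NNReal

/-! ### second derivatives of sublinear functions -/

lemma hasDerivAt_line {n : ℕ} {f : E n → ℝ} {x : E n} (hf : DifferentiableAt ℝ f x) (e : E n) :
    HasDerivAt (fun τ : ℝ => f (x + τ • e)) (fderiv ℝ f x e) 0 :=
  hf.hasFDerivAt.hasLineDerivAt e

lemma nonneg_of_right {f : ℝ → ℝ} {d : ℝ} (hf : HasDerivAt f d 0)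
    (h : ∀ τ : ℝ, 0 < τ → f 0 ≤ f τ) : 0 ≤ d := by
  have h1 := hf.hasDerivWithinAt (s := Ioi 0)
  rw [hasDerivWithinAt_iff_tendsto_slope' (by simp)] at h1
  refine ge_of_tendsto h1 ?_
  filter_upwards [self_mem_nhdsWithin] with τ hτ
  rw [slope_def_field]
  have hτ' : (0 : ℝ) < τ := hτ
  exact div_nonneg (by linarith [h τ hτ']) (by linarith)

lemma euler {n : ℕ} {h : E n → ℝ} (hh : Sublinear h) {x : E n} (hx : DifferentiableAt ℝ h x) :
    fderiv ℝ h x x = h x := by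
  refine lineD hx ?_
  have h1 : HasDerivAt (fun τ : ℝ => (1 + τ) * h x) (h x) 0 := by
    simpa using ((hasDerivAt_id (0 : ℝ)).const_add 1).mul_const (h x)
  refine h1.congr_of_eventuallyEq ?_
  filter_upwards [lt_mem_nhds (show (-1 : ℝ) < 0 by norm_num)] with τ hτ
  have : x + τ • x = (1 + τ) • x := by rw [add_smul, one_smul]
  rw [this, hh.pos_hom _ (by linarith)]

lemma grad_le {n : ℕ} {h : E n → ℝ} (hh : Sublinear h) {x : E n} (hx : DifferentiableAt ℝ h x)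
    (y : E n) : fderiv ℝ h x y ≤ h y := by
  have h1 := hasDerivAt_line hx y
  have h2 : HasDerivAt (fun τ : ℝ => τ * h y - h (x + τ • y)) (h y - fderiv ℝ h x y) 0 := by
    have := ((hasDerivAt_id (0 : ℝ)).mul_const (h y)).fun_sub h1
    simpa using this
  have h3 := nonneg_of_right h2 (fun τ hτ => by
    have e1 := hh.add_le x (τ • y)
    rw [hh.pos_hom _ hτ.le] at e1
    simp only [zero_mul, zero_smul, add_zero]
    linarith)
  linarith

lemma D2_nonneg {n : ℕ} {h : E n → ℝ} (hh : Sublinear h) (hC : ContDiffOn ℝ ∞ h {0}ᶜ)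
    (e : E n) {w : E n} (hw : w ≠ 0) : 0 ≤ D2 h e w := by
  have hd : ∀ x : E n, x ≠ 0 → DifferentiableAt ℝ h x := fun x hx =>
    (cda hC hx).differentiableAt (by simp)
  by_cases hcol : ∃ τ : ℝ, w + τ • e = 0
  · -- then `e` is a multiple of `w`, and the function is constant on a ray
    obtain ⟨τ0, hτ0⟩ := hcol
    have hτ1 : τ0 ≠ 0 := by
      rintro rfl; exact hw (by simpa using hτ0)
    have he : e = (-τ0⁻¹) • w := by
      have h1 : τ0 • e = -w := eq_neg_of_add_eq_zero_right hτ0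
      have h2 : e = τ0⁻¹ • (τ0 • e) := by rw [smul_smul, inv_mul_cancel₀ hτ1, one_smul]
      rw [h2, h1, smul_neg, neg_smul]
    have h0 : D2 h e w = 0 := by
      unfold D2
      refine lineD ((cda1 hC e hw).differentiableAt (by simp)) ?_
      refine (hasDerivAt_const (0 : ℝ) (fderiv ℝ h w e)).congr_of_eventuallyEq ?_
      have hlt : ∀ᶠ τ : ℝ in nhds 0, 0 < 1 + τ * (-τ0⁻¹) := by
        have hc : ContinuousAt (fun τ : ℝ => 1 + τ * (-τ0⁻¹)) 0 := by fun_prop
        exact hc.eventually (lt_mem_nhds (by simp))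
      filter_upwards [hlt] with τ hτ
      have : w + τ • e = (1 + τ * (-τ0⁻¹)) • w := by
        conv_lhs => rw [he]
        rw [add_smul, one_smul, smul_smul]
      rw [this, fderiv_hom hh hτ]
    exact h0.ge
  · push Not at hcol
    have h1 := hasDerivAt_line ((cda1 hC e hw).differentiableAt (by simp)) e
    refine nonneg_of_right h1 fun τ hτ => ?_
    have hx := hcol τ
    have e1 := grad_le hh (hd w hw) (w + τ • e)
    have e2 := euler hh (hd _ hx)
    have e3 := grad_le hh (hd _ hx) w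
    have e4 := euler hh (hd w hw)
    rw [← e2] at e1
    rw [← e4] at e3
    simp only [map_add, map_smul, smul_eq_mul] at e1
    simp only [zero_smul, add_zero]
    have e5 : τ * fderiv ℝ h w e ≤ τ * fderiv ℝ h (w + τ • e) e := by linarith
    exact le_of_mul_le_mul_left e5 hτ

/-- the Hessian form -/
noncomputable def Bf {n : ℕ} (h : E n → ℝ) (w a b : E n) : ℝ := fderiv ℝ (fderiv ℝ h) w a b

lemma cdaF {n : ℕ} {h : E n → ℝ} (hC : ContDiffOn ℝ ∞ h {0}ᶜ) {w : E n} (hw : w ≠ 0) :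
    ContDiffAt ℝ ∞ (fderiv ℝ h) w := (cda hC hw).fderiv_right (m := ∞) (by simp)

lemma D2_eq_Bf {n : ℕ} {h : E n → ℝ} (hC : ContDiffOn ℝ ∞ h {0}ᶜ) {w : E n} (hw : w ≠ 0)
    (e : E n) : D2 h e w = Bf h w e e := by
  unfold D2 Bf
  rw [fderiv_clm_apply ((cdaF hC hw).differentiableAt (by simp)) (differentiableAt_const e)]
  simp

lemma Bf_symm {n : ℕ} {h : E n → ℝ} (hC : ContDiffOn ℝ ∞ h {0}ᶜ) {w : E n} (hw : w ≠ 0)
    (a b : E n) : Bf h w a b = Bf h w b a := by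
  have h2 : (2 : WithTop ℕ∞) ≤ ∞ := by
    have : ((2 : ℕ∞) : WithTop ℕ∞) ≤ ((⊤ : ℕ∞) : WithTop ℕ∞) := WithTop.coe_le_coe.2 le_top
    exact this
  have := (cda hC hw).isSymmSndFDerivAt (by simpa using h2)
  exact this a b

lemma Bf_w {n : ℕ} {h : E n → ℝ} (hh : Sublinear h) (hC : ContDiffOn ℝ ∞ h {0}ᶜ) {w : E n}
    (hw : w ≠ 0) (b : E n) : Bf h w w b = 0 := by
  unfold Bf
  have hd : DifferentiableAt ℝ (fderiv ℝ h) w := (cdaF hC hw).differentiableAt (by simp)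
  have h1 : HasDerivAt (fun τ : ℝ => fderiv ℝ h (w + τ • w)) (fderiv ℝ (fderiv ℝ h) w w) 0 :=
    hd.hasFDerivAt.hasLineDerivAt w
  have h2 : HasDerivAt (fun τ : ℝ => fderiv ℝ h (w + τ • w)) 0 0 := by
    refine (hasDerivAt_const (0 : ℝ) (fderiv ℝ h w)).congr_of_eventuallyEq ?_
    filter_upwards [lt_mem_nhds (show (-1 : ℝ) < 0 by norm_num)] with τ hτ
    have : w + τ • w = (1 + τ) • w := by rw [add_smul, one_smul]
    rw [this, fderiv_hom hh (by linarith)]
  rw [h1.unique h2]; simp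

lemma Bf_add_left {n : ℕ} (h : E n → ℝ) (w a a' b : E n) :
    Bf h w (a + a') b = Bf h w a b + Bf h w a' b := by unfold Bf; simp

lemma Bf_smul_left {n : ℕ} (h : E n → ℝ) (w a b : E n) (c : ℝ) :
    Bf h w (c • a) b = c * Bf h w a b := by unfold Bf; simp

lemma Bf_add_right {n : ℕ} (h : E n → ℝ) (w a b b' : E n) :
    Bf h w a (b + b') = Bf h w a b + Bf h w a b' := by unfold Bf; simp

lemma Bf_smul_right {n : ℕ} (h : E n → ℝ) (w a b : E n) (c : ℝ) :
    Bf h w a (c • b) = c * Bf h w a b := by unfold Bf; simp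

lemma Bf_cs {n : ℕ} {h : E n → ℝ} (hh : Sublinear h) (hC : ContDiffOn ℝ ∞ h {0}ᶜ) {w : E n}
    (hw : w ≠ 0) (a b : E n) : (Bf h w a b) ^ 2 ≤ Bf h w a a * Bf h w b b := by
  have key : ∀ x : ℝ, 0 ≤ Bf h w b b * (x * x) + 2 * Bf h w a b * x + Bf h w a a := by
    intro x
    have h1 := D2_nonneg hh hC (a + x • b) hw
    rw [D2_eq_Bf hC hw] at h1
    simp only [Bf_add_left, Bf_add_right, Bf_smul_left, Bf_smul_right] at h1
    rw [Bf_symm hC hw b a] at h1
    linarith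
  have := discrim_le_zero key
  unfold discrim at this
  nlinarith

lemma trace_bound {n : ℕ} {h : E n → ℝ} (hh : Sublinear h) (hC : ContDiffOn ℝ ∞ h {0}ᶜ) {w : E n}
    (hw : w ≠ 0) (p : E n) : Bf h w p p ≤ ‖p‖ ^ 2 * Lap h w := by
  classical
  set b := EuclideanSpace.basisFun (Fin n) ℝ with hb
  have hLap : Lap h w = ∑ i : Fin n, Bf h w (b i) (b i) := by
    unfold Lap
    exact Finset.sum_congr rfl fun i _ => D2_eq_Bf hC hw _
  have hp : p = ∑ i : Fin n, (inner ℝ (b i) p : ℝ) • b i := (b.sum_repr' p).symm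
  have hβ : Bf h w p p = ∑ i : Fin n, (inner ℝ (b i) p : ℝ) * Bf h w (b i) p := by
    have : Bf h w p p = Bf h w (∑ i : Fin n, (inner ℝ (b i) p : ℝ) • b i) p := by rw [← hp]
    rw [this]
    unfold Bf
    simp [map_sum]
  have hnorm : ∑ i : Fin n, (inner ℝ (b i) p : ℝ) ^ 2 = ‖p‖ ^ 2 := by
    rw [← real_inner_self_eq_norm_sq, ← b.sum_inner_mul_inner p p]
    exact Finset.sum_congr rfl fun i _ => by rw [real_inner_comm p (b i)]; ring
  have hβ0 : 0 ≤ Bf h w p p := by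
    have := D2_nonneg hh hC p hw
    rwa [D2_eq_Bf hC hw] at this
  have h1 : (Bf h w p p) ^ 2 ≤ ‖p‖ ^ 2 * ∑ i : Fin n, (Bf h w (b i) p) ^ 2 := by
    rw [← hnorm]
    calc (Bf h w p p) ^ 2 = (∑ i : Fin n, (inner ℝ (b i) p : ℝ) * Bf h w (b i) p) ^ 2 := by
          rw [hβ]
      _ ≤ _ := Finset.sum_mul_sq_le_sq_mul_sq _ _ _
  have h2 : ∑ i : Fin n, (Bf h w (b i) p) ^ 2 ≤ Lap h w * Bf h w p p := by
    rw [hLap, Finset.sum_mul]
    exact Finset.sum_le_sum fun i _ => Bf_cs hh hC hw _ _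
  have h3 : (Bf h w p p) ^ 2 ≤ ‖p‖ ^ 2 * (Lap h w * Bf h w p p) :=
    h1.trans (mul_le_mul_of_nonneg_left h2 (by positivity))
  rcases hβ0.eq_or_lt with h0 | h0
  · rw [← h0]
    have : 0 ≤ Lap h w := by
      unfold Lap
      exact Finset.sum_nonneg fun i _ => D2_nonneg hh hC _ hw
    positivity
  · have : Bf h w p p * Bf h w p p ≤ (‖p‖ ^ 2 * Lap h w) * Bf h w p p := by nlinarith
    exact le_of_mul_le_mul_right this h0

lemma D2_le {n : ℕ} {h : E n → ℝ} (hh : Sublinear h) (hC : ContDiffOn ℝ ∞ h {0}ᶜ) {u w : E n}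
    (hu : ‖u‖ = 1) (hw : ‖w‖ = 1) :
    D2 h u w ≤ (1 - (inner ℝ u w : ℝ) ^ 2) * Lap h w := by
  have hw0 : w ≠ 0 := by rintro rfl; simp at hw
  set t : ℝ := inner ℝ u w with ht
  set p : E n := u - t • w with hp
  have hpn : ‖p‖ ^ 2 = 1 - t ^ 2 := by
    rw [hp, norm_sub_sq_real, norm_smul, inner_smul_right, mul_pow, hu, hw, Real.norm_eq_abs,
      sq_abs, ← ht]
    ring
  have hu' : u = p + t • w := by rw [hp]; abel
  have hB : Bf h w u u = Bf h w p p := by
    conv_lhs => rw [hu']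
    simp only [Bf_add_left, Bf_add_right, Bf_smul_left, Bf_smul_right, Bf_w hh hC hw0]
    rw [Bf_symm hC hw0 p w, Bf_w hh hC hw0]
    ring
  rw [D2_eq_Bf hC hw0, hB, ← hpn]
  exact trace_bound hh hC hw0 p

end Pool.Agent.Helper62.Mink
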