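import Pool.Agent.Helper62.Mink.Key3

namespace Pool.Agent.Helper62.Mink

open MeasureTheory Metric Set Polynomial
open scoped RealInnerProductSpace ContDiff NNReal

/-- `G(θ) = sin^{n-2}θ q(cos θ)` -/
lemma hasDerivAt_G {n : ℕ} (hn : 3 ≤ n) {p q α : ℝ[X]} (hr : Rep n p q α) (θ : ℝ) :
    HasDerivAt (fun θ : ℝ => Real.sin θ ^ (n - 2) * q.eval (Real.cos θ))
      (-(p.eval (Real.cos θ) * Real.cos θ ^ 2 * Real.sin θ ^ (n - 3))) θ := by
  have h1 : HasDerivAt (fun θ : ℝ => Real.sin θ ^ (n - 2))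
      (((n - 2 : ℕ) : ℝ) * Real.sin θ ^ (n - 2 - 1) * Real.cos θ) θ :=
    (Real.hasDerivAt_sin θ).fun_pow (n - 2)
  have h2 : HasDerivAt (fun θ : ℝ => q.eval (Real.cos θ))
      (q.derivative.eval (Real.cos θ) * (-Real.sin θ)) θ :=
    HasDerivAt.comp (h := fun θ : ℝ => Real.cos θ) θ (q.hasDerivAt (Real.cos θ))
      (Real.hasDerivAt_cos θ)
  refine (h1.fun_mul h2).congr_deriv ?_
  have hq := congrArg (Polynomial.eval (Real.cos θ)) hr.hq
  simp only [eval_sub, eval_mul, eval_one, eval_pow, eval_X, eval_C] at hq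
  have hs : Real.sin θ ^ 2 = 1 - Real.cos θ ^ 2 := Real.sin_sq θ
  obtain ⟨m, rfl⟩ : ∃ m, n = m + 3 := ⟨n - 3, by omega⟩
  have e1 : m + 3 - 2 = m + 1 := by omega
  have e2 : m + 3 - 3 = m := by omega
  have e3 : m + 1 - 1 = m := by omega
  rw [e1, e2, e3]
  push_cast at hq ⊢
  rw [← hs] at hq
  linear_combination (-(Real.sin θ ^ m)) * hq

lemma seg_rep {n : ℕ} (hn : 3 ≤ n) {p q α : ℝ[X]} (hr : Rep n p q α) :
    seg n (fun x => p.eval x) = 0 := by
  have h1 : ∫ θ in (0 : ℝ)..Real.pi,
      (-(p.eval (Real.cos θ) * Real.cos θ ^ 2 * Real.sin θ ^ (n - 3)))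
      = Real.sin Real.pi ^ (n - 2) * q.eval (Real.cos Real.pi)
        - Real.sin 0 ^ (n - 2) * q.eval (Real.cos 0) :=
    intervalIntegral.integral_eq_sub_of_hasDerivAt (fun θ _ => hasDerivAt_G hn hr θ)
      (Continuous.intervalIntegrable (by fun_prop) _ _)
  have h2 : n - 2 ≠ 0 := by omega
  rw [intervalIntegral.integral_neg] at h1
  simp only [Real.sin_pi, Real.sin_zero, zero_pow h2, zero_mul, sub_zero] at h1
  unfold seg
  linarith

lemma seg_one_pos_aux {n : ℕ} : 0 < seg n (fun _ => 1) := by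
  unfold seg
  have h1 : ∀ θ : ℝ, (1 : ℝ) * Real.cos θ ^ 2 * Real.sin θ ^ (n - 3)
      = Real.cos θ ^ 2 * Real.sin θ ^ (n - 3) := fun θ => by ring
  simp_rw [h1]
  refine intervalIntegral.integral_pos Real.pi_pos (by fun_prop) ?_ ?_
  · intro θ hθ
    have := Real.sin_nonneg_of_nonneg_of_le_pi hθ.1.le hθ.2
    positivity
  · refine ⟨Real.pi / 4, ⟨by positivity, by linarith [Real.pi_pos]⟩, ?_⟩
    have h3 : 0 < Real.cos (Real.pi / 4) := by rw [Real.cos_pi_div_four]; positivity
    have h4 : 0 < Real.sin (Real.pi / 4) := by rw [Real.sin_pi_div_four]; positivity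
    positivity

lemma rep_of_seg {n : ℕ} (hn : 3 ≤ n) (p : ℝ[X]) (h0 : seg n (fun x => p.eval x) = 0) :
    ∃ q α : ℝ[X], Rep n p q α := by
  obtain ⟨c, q, α, hr⟩ := exists_rep hn p
  have h1 := seg_rep hn hr
  have h2 : seg n (fun x => p.eval x) = seg n (fun x => (p - C c).eval x)
      + c * seg n (fun _ => 1) := by
    unfold seg
    rw [← intervalIntegral.integral_const_mul, ← intervalIntegral.integral_add
      (Continuous.intervalIntegrable (by fun_prop) _ _)
      (Continuous.intervalIntegrable (by fun_prop) _ _)]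
    refine intervalIntegral.integral_congr fun θ _ => ?_
    simp only [eval_sub, eval_C]; ring
  rw [h0, h1, zero_add] at h2
  have hc : c = 0 := by
    rcases mul_eq_zero.1 h2.symm with h | h
    · exact h
    · exact absurd h seg_one_pos_aux.ne'
  rw [hc, C_0, sub_zero] at hr
  exact ⟨q, α, hr⟩

/-- `p(s)/s` is nonincreasing on each side -/
lemma star_pos {p : ℝ[X]} (hp : ∀ x ∈ Icc (-1 : ℝ) 1, x * p.derivative.eval x ≤ p.eval x)
    {a b : ℝ} (ha : -1 ≤ a) (hab : a ≤ b) (hb : b ≤ 1) (h0 : ∀ x ∈ Icc a b, x ≠ 0) :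
    p.eval b / b ≤ p.eval a / a := by
  have hanti : AntitoneOn (fun x => p.eval x / x) (Icc a b) := by
    refine antitoneOn_of_deriv_nonpos (convex_Icc a b) ?_ ?_ ?_
    · exact p.continuous.continuousOn.div continuousOn_id h0
    · intro x hx
      rw [interior_Icc] at hx
      exact ((p.differentiable x).div differentiableAt_id (h0 x ⟨hx.1.le, hx.2.le⟩)).differentiableWithinAt
    · intro x hx
      rw [interior_Icc] at hx
      have hx0 := h0 x ⟨hx.1.le, hx.2.le⟩
      have hd := ((p.hasDerivAt x).div (hasDerivAt_id x) hx0).deriv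
      have hd' : deriv (fun x => p.eval x / x) x
          = (p.derivative.eval x * x - p.eval x * 1) / x ^ 2 := hd
      rw [hd']
      refine div_nonpos_of_nonpos_of_nonneg ?_ (by positivity)
      have := hp x ⟨by linarith [hx.1], by linarith [hx.2]⟩
      linarith
  exact hanti (left_mem_Icc.2 hab) (right_mem_Icc.2 hab) hab

/-- the scalar positivity -/
lemma scal_pos {n : ℕ} (hn : 3 ≤ n) {p q α : ℝ[X]} (hr : Rep n p q α)
    (hp : ∀ x ∈ Icc (-1 : ℝ) 1, x * p.derivative.eval x ≤ p.eval x) {t : ℝ} (ht : |t| < 1) :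
    0 ≤ (1 / 2) * (p.eval t - t * p.derivative.eval t) + (1 - t ^ 2) * α.eval t := by
  have hn' : (3 : ℝ) ≤ n := by exact_mod_cast hn
  have ht' := abs_lt.1 ht
  have h1t : 0 < 1 - t ^ 2 := by nlinarith
  -- subtract a linear function
  suffices H : ∃ c : ℝ, 0 ≤ (1 + ((n : ℝ) - 2) / 2 * t ^ 2) * (p.eval t - c * t)
      + (n : ℝ) * (n - 2) / 2 * t
        * (q.eval t - c * (-(2 / ((n : ℝ) * (n - 2))) * (1 + ((n : ℝ) - 2) / 2 * t ^ 2))) by
    obtain ⟨c, hc⟩ := H
    have hl := (hr.lin (rep_X hn) 1 (-c)).ha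
    have hl' := congrArg (Polynomial.eval t) hl
    simp only [eval_sub, eval_add, eval_mul, eval_one, eval_pow, eval_X, eval_C, eval_zero,
      derivative_add, derivative_C_mul, derivative_X, mul_one] at hl'
    have : 0 ≤ (1 - t ^ 2) * ((1 / 2) * (p.eval t - t * p.derivative.eval t)
        + (1 - t ^ 2) * α.eval t) := by
      calc (0 : ℝ) ≤ _ := hc
        _ = _ := by
          linear_combination (-1 : ℝ) * hl'
    exact nonneg_of_mul_nonneg_right this h1t
  have hder : ∀ c : ℝ, ∀ θ : ℝ, HasDerivAt (fun θ : ℝ => Real.sin θ ^ (n - 2)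
      * (C 1 * q + C (-c) * (C (-(2 / ((n : ℝ) * (n - 2))))
        * (1 + C (((n : ℝ) - 2) / 2) * Polynomial.X ^ 2))).eval (Real.cos θ))
      (-((C 1 * p + C (-c) * Polynomial.X).eval (Real.cos θ) * Real.cos θ ^ 2
        * Real.sin θ ^ (n - 3))) θ :=
    fun c θ => hasDerivAt_G hn (hr.lin (rep_X hn) 1 (-c)) θ
  have hn2 : n - 2 ≠ 0 := by omega
  rcases lt_trichotomy t 0 with h0 | h0 | h0
  · -- negative side
    refine ⟨p.eval t / t, ?_⟩
    set c := p.eval t / t with hc
    have hct : c * t = p.eval t := div_mul_cancel₀ _ h0.ne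
    set θ0 := Real.arccos t with hθ0
    have hcos : Real.cos θ0 = t := Real.cos_arccos (by linarith) (by linarith)
    have hθm : θ0 ∈ Icc (0 : ℝ) Real.pi := ⟨Real.arccos_nonneg t, Real.arccos_le_pi t⟩
    have hmono : MonotoneOn (fun θ : ℝ => Real.sin θ ^ (n - 2)
      * (C 1 * q + C (-c) * (C (-(2 / ((n : ℝ) * (n - 2))))
        * (1 + C (((n : ℝ) - 2) / 2) * Polynomial.X ^ 2))).eval (Real.cos θ)) (Icc θ0 Real.pi) := by
      refine monotoneOn_of_deriv_nonneg (convex_Icc _ _) (by fun_prop)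
        (fun θ _ => (hder c θ).differentiableAt.differentiableWithinAt) ?_
      intro θ hθ
      rw [interior_Icc] at hθ
      rw [(hder c θ).deriv]
      have hs : 0 ≤ Real.sin θ := Real.sin_nonneg_of_nonneg_of_le_pi (hθm.1.trans hθ.1.le) hθ.2.le
      have hcθ : Real.cos θ ≤ t := by
        rw [← hcos]
        exact Real.cos_le_cos_of_nonneg_of_le_pi hθm.1 hθ.2.le hθ.1.le
      have hneg : Real.cos θ < 0 := lt_of_le_of_lt hcθ h0
      have hst := star_pos hp (Real.neg_one_le_cos θ) hcθ (by linarith)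
        (fun x hx => (lt_of_le_of_lt hx.2 h0).ne)
      have h5 : p.eval (Real.cos θ) ≤ c * Real.cos θ := by
        have := mul_le_mul_of_nonpos_right hst hneg.le
        rwa [div_mul_cancel₀ _ hneg.ne] at this
      simp only [eval_add, eval_mul, eval_C, eval_X]
      have h6 : 0 ≤ Real.cos θ ^ 2 * Real.sin θ ^ (n - 3) := by positivity
      nlinarith
    have hle := hmono (left_mem_Icc.2 hθm.2) (right_mem_Icc.2 hθm.2) hθm.2
    simp only [Real.sin_pi, zero_pow hn2, zero_mul] at hle
    have hsin : 0 < Real.sin θ0 := by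
      rw [hθ0, Real.sin_arccos]; exact Real.sqrt_pos.2 h1t
    have hq : (C 1 * q + C (-c) * (C (-(2 / ((n : ℝ) * (n - 2))))
        * (1 + C (((n : ℝ) - 2) / 2) * Polynomial.X ^ 2))).eval t ≤ 0 := by
      rw [hcos] at hle
      have hpos : 0 < Real.sin θ0 ^ (n - 2) := by positivity
      by_contra hcon
      push Not at hcon
      have := mul_pos hpos hcon
      linarith
    simp only [eval_add, eval_mul, eval_C, eval_X, eval_one, eval_pow] at hq
    rw [hct, sub_self, mul_zero, zero_add]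
    have h7 : (n : ℝ) * (n - 2) / 2 * t ≤ 0 := by
      have : 0 ≤ (n : ℝ) * (n - 2) / 2 := by
        have : 0 ≤ (n : ℝ) - 2 := by linarith
        positivity
      nlinarith
    refine mul_nonneg_of_nonpos_of_nonpos h7 ?_
    linarith
  · refine ⟨0, ?_⟩
    subst h0
    have := hp 0 (by constructor <;> norm_num)
    simp only [zero_mul] at this
    simp
    exact this
  · -- positive side
    refine ⟨p.eval t / t, ?_⟩
    set c := p.eval t / t with hc
    have hct : c * t = p.eval t := div_mul_cancel₀ _ h0.ne'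
    set θ0 := Real.arccos t with hθ0
    have hcos : Real.cos θ0 = t := Real.cos_arccos (by linarith) (by linarith)
    have hθm : θ0 ∈ Icc (0 : ℝ) Real.pi := ⟨Real.arccos_nonneg t, Real.arccos_le_pi t⟩
    have hmono : MonotoneOn (fun θ : ℝ => Real.sin θ ^ (n - 2)
      * (C 1 * q + C (-c) * (C (-(2 / ((n : ℝ) * (n - 2))))
        * (1 + C (((n : ℝ) - 2) / 2) * Polynomial.X ^ 2))).eval (Real.cos θ)) (Icc 0 θ0) := by
      refine monotoneOn_of_deriv_nonneg (convex_Icc _ _) (by fun_prop)
        (fun θ _ => (hder c θ).differentiableAt.differentiableWithinAt) ?_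
      intro θ hθ
      rw [interior_Icc] at hθ
      rw [(hder c θ).deriv]
      have hs : 0 ≤ Real.sin θ := Real.sin_nonneg_of_nonneg_of_le_pi hθ.1.le (hθ.2.le.trans hθm.2)
      have hcθ : t ≤ Real.cos θ := by
        rw [← hcos]
        exact Real.cos_le_cos_of_nonneg_of_le_pi hθ.1.le hθm.2 hθ.2.le
      have hpos : 0 < Real.cos θ := lt_of_lt_of_le h0 hcθ
      have hst := star_pos hp (by linarith) hcθ (Real.cos_le_one θ)
        (fun x hx => (lt_of_lt_of_le h0 hx.1).ne')
      have h5 : p.eval (Real.cos θ) ≤ c * Real.cos θ := by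
        have := mul_le_mul_of_nonneg_right hst hpos.le
        rwa [div_mul_cancel₀ _ hpos.ne'] at this
      simp only [eval_add, eval_mul, eval_C, eval_X]
      have h6 : 0 ≤ Real.cos θ ^ 2 * Real.sin θ ^ (n - 3) := by positivity
      nlinarith
    have hle := hmono (left_mem_Icc.2 hθm.1) (right_mem_Icc.2 hθm.1) hθm.1
    simp only [Real.sin_zero, zero_pow hn2, zero_mul] at hle
    have hsin : 0 < Real.sin θ0 := by
      rw [hθ0, Real.sin_arccos]; exact Real.sqrt_pos.2 h1t
    have hq : 0 ≤ (C 1 * q + C (-c) * (C (-(2 / ((n : ℝ) * (n - 2))))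
        * (1 + C (((n : ℝ) - 2) / 2) * Polynomial.X ^ 2))).eval t := by
      rw [hcos] at hle
      have hpos : 0 < Real.sin θ0 ^ (n - 2) := by positivity
      exact nonneg_of_mul_nonneg_right hle hpos
    simp only [eval_add, eval_mul, eval_C, eval_X, eval_one, eval_pow] at hq
    rw [hct, sub_self, mul_zero, zero_add]
    have h7 : 0 ≤ (n : ℝ) * (n - 2) / 2 * t := by
      have : 0 ≤ (n : ℝ) - 2 := by linarith
      positivity
    refine mul_nonneg h7 ?_
    linarith

/-- the key inequality -/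
theorem key_pos {n : ℕ} (hn : 3 ≤ n) {h : E n → ℝ} (hh : Sublinear h)
    (hC : ContDiffOn ℝ ∞ h {0}ᶜ) (p : ℝ[X])
    (hp : ∀ x ∈ Icc (-1 : ℝ) 1, x * p.derivative.eval x ≤ p.eval x)
    (h0 : seg n (fun x => p.eval x) = 0) (u v : E n) (hu : ‖u‖ = 1) (hv : ‖v‖ = 1)
    (huv : (inner ℝ u v : ℝ) = 0) :
      0 ≤ ∫ w : sphere (0 : E n) 1, h w *
        ((p.eval (inner ℝ u (w : E n)) - inner ℝ u (w : E n) * p.derivative.eval (inner ℝ u (w : E n)))
          + p.derivative.derivative.eval (inner ℝ u (w : E n)) * (inner ℝ v (w : E n)) ^ 2)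
        ∂(volume : Measure (E n)).toSphere := by
  obtain ⟨q, α, hr⟩ := rep_of_seg hn p h0
  have huu : (inner ℝ u u : ℝ) = 1 := by rw [real_inner_self_eq_norm_sq, hu]; norm_num
  have hvv : (inner ℝ v v : ℝ) = 1 := by rw [real_inner_self_eq_norm_sq, hv]; norm_num
  have hop := hr.hop h hh hC u v huu hvv huv
  have hch := cont_h hC
  have hcL := cont_Lap hC
  have hcD := cont_D2 hC u
  have e1 : ∫ w : sphere (0 : E n) 1, h w *
        ((p.eval (inner ℝ u (w : E n)) - inner ℝ u (w : E n) * p.derivative.eval (inner ℝ u (w : E n)))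
          + p.derivative.derivative.eval (inner ℝ u (w : E n)) * (inner ℝ v (w : E n)) ^ 2)
        ∂(volume : Measure (E n)).toSphere
      = SL h (cont_h hC) u v 0 (p - Polynomial.X * derivative p)
      + SL h (cont_h hC) u v 2 (derivative (derivative p)) := by
    rw [SL_apply, SL_apply]
    unfold SI
    rw [← integral_add]
    · refine integral_congr_ae (Filter.Eventually.of_forall fun w => ?_)
      simp only [eval_sub, eval_mul, eval_X, pow_zero, one_mul]; ring
    · exact sphere_integrable (φ := fun x => h x * ((inner ℝ v x) ^ 0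
        * (p - Polynomial.X * derivative p).eval (inner ℝ u x))) (hch.mul (by fun_prop))
    · exact sphere_integrable (φ := fun x => h x * ((inner ℝ v x) ^ 2
        * (derivative (derivative p)).eval (inner ℝ u x))) (hch.mul (by fun_prop))
  rw [e1, hop, SL_apply, SL_apply]
  unfold SI
  rw [← integral_add]
  · refine integral_nonneg fun w => ?_
    have hw : ‖(w : E n)‖ = 1 := by simp
    have hw0 : (w : E n) ≠ 0 := by intro h0; rw [h0] at hw; simp at hw
    have b1 := D2_nonneg hh hC u hw0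
    have b2 := D2_le hh hC hu hw
    have b3 : 0 ≤ Lap h (w : E n) := by
      unfold Lap
      exact Finset.sum_nonneg fun i _ => D2_nonneg hh hC _ hw0
    set t : ℝ := inner ℝ u (w : E n) with ht
    have htabs : |t| ≤ 1 := by
      have := abs_real_inner_le_norm u (w : E n)
      rwa [hu, hw, one_mul] at this
    have ht' := abs_le.1 htabs
    have hδ := hp t ⟨ht'.1, ht'.2⟩
    show (0 : ℝ) ≤ Lap h w * ((inner ℝ v (w : E n)) ^ 2
        * (C (1 / 2) * (p - Polynomial.X * derivative p)).eval t)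
      + D2 h u w * ((inner ℝ v (w : E n)) ^ 2 * α.eval t)
    simp only [eval_sub, eval_mul, eval_C, eval_X]
    have hs2 : 0 ≤ (inner ℝ v (w : E n) : ℝ) ^ 2 := by positivity
    have main : 0 ≤ Lap h w * (1 / 2 * (p.eval t - t * p.derivative.eval t)) + D2 h u w * α.eval t := by
      rcases le_or_gt 0 (α.eval t) with hα | hα
      · have : 0 ≤ 1 / 2 * (p.eval t - t * p.derivative.eval t) := by linarith
        positivity
      · rcases htabs.eq_or_lt with h1 | h1
        · have h2 : t ^ 2 = 1 := by rw [← sq_abs, h1]; norm_num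
          have h3 : D2 h u w = 0 := by
            refine le_antisymm ?_ b1
            rw [h2] at b2; linarith
          rw [h3, zero_mul, add_zero]
          exact mul_nonneg b3 (by linarith)
        · have h4 := scal_pos hn hr hp h1
          have h5 : (1 - t ^ 2) * Lap h w * α.eval t ≤ D2 h u w * α.eval t :=
            mul_le_mul_of_nonpos_right b2 hα.le
          have h6 := mul_nonneg b3 h4
          nlinarith
    nlinarith [mul_nonneg hs2 main]
  · exact sphere_integrable (φ := fun x => Lap h x * ((inner ℝ v x) ^ 2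
        * (C (1 / 2) * (p - Polynomial.X * derivative p)).eval (inner ℝ u x)))
        (hcL.mul (by fun_prop))
  · exact sphere_integrable (φ := fun x => D2 h u x * ((inner ℝ v x) ^ 2
        * α.eval (inner ℝ u x))) (hcD.mul (by fun_prop))

end Pool.Agent.Helper62.Mink
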